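import Pool.Agent.SerialKdim.Defs

/-!
Algebraic compactness, solution sets, idempotents and hulls.
-/

namespace Pool.Agent.SerialKdim

universe u v

open Finsupp

section

variable (R : Type u) [Ring R]

/-- Every finitely solvable system of linear equations is solvable. -/
def AlgCompact (N : Type u) [AddCommGroup N] [Module R N] : Prop :=
  ∀ (K : Type u) (E : Set ((K →₀ R) × N)),
    (∀ F : Finset ((K →₀ R) × N), (F : Set _) ⊆ E →
      ∃ m : K → N, ∀ p ∈ F, linearCombination R m p.1 = p.2) →
    ∃ m : K → N, ∀ p ∈ E, linearCombination R m p.1 = p.2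

variable {R}

theorem lc_congr_support {K : Type*} {N : Type*} [AddCommGroup N] [Module R N] (ρ : K →₀ R)
    (m m' : K → N) (h : ∀ k ∈ ρ.support, m k = m' k) :
    linearCombination R m ρ = linearCombination R m' ρ := by
  rw [linearCombination_apply, linearCombination_apply]
  exact Finsupp.sum_congr fun k hk => by rw [h k hk]

theorem lc_map {K : Type*} {N N' : Type*} [AddCommGroup N] [Module R N] [AddCommGroup N']
    [Module R N'] (f : N →ₗ[R] N') (ρ : K →₀ R) (m : K → N) :
    f (linearCombination R m ρ) = linearCombination R (fun k => f (m k)) ρ := by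
  rw [linearCombination_apply, linearCombination_apply, map_finsuppSum]
  simp

theorem PureEmbedding.finset {A B : Type v} [AddCommGroup A] [Module R A]
    [AddCommGroup B] [Module R B] {f : A →ₗ[R] B} (hf : PureEmbedding f) {K : Type*}
    (F : Finset ((K →₀ R) × A))
    (h : ∃ y : K → B, ∀ p ∈ F, linearCombination R y p.1 = f p.2) :
    ∃ y : K → A, ∀ p ∈ F, linearCombination R y p.1 = p.2 := by
  classical
  obtain ⟨y, hy⟩ := h
  let S : Finset K := F.biUnion fun p => p.1.support
  have hS : ∀ p ∈ F, p.1.support ⊆ S := fun p hp =>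
    Finset.subset_biUnion_of_mem (fun p : (K →₀ R) × A => p.1.support) hp
  let eS := S.equivFin
  let eF := F.equivFin
  have hsum : ∀ {N : Type v} [AddCommGroup N] [Module R N] (z : K → N) (p) (_ : p ∈ F),
      linearCombination R z p.1 = ∑ j, p.1 (eS.symm j).1 • z (eS.symm j).1 := by
    intro N _ _ z p hp
    rw [linearCombination_apply, Finsupp.sum_of_support_subset _ (hS p hp) _ (by simp),
      ← Finset.sum_coe_sort S, ← Equiv.sum_comp eS.symm]
  obtain ⟨w, hw⟩ := hf.2 F.card S.card (fun i j => (eF.symm i).1.1 (eS.symm j).1)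
    (fun i => (eF.symm i).1.2)
    ⟨fun j => y (eS.symm j).1, fun i => by
      rw [← hy _ (eF.symm i).2, hsum _ _ (eF.symm i).2]⟩
  refine ⟨fun k => if hk : k ∈ S then w (eS ⟨k, hk⟩) else 0, fun p hp => ?_⟩
  rw [hsum _ _ hp]
  have := hw (eF ⟨p, hp⟩)
  simp only [Equiv.symm_apply_apply] at this
  rw [← this]
  refine Finset.sum_congr rfl fun j _ => ?_
  rw [dif_pos (eS.symm j).2]
  simp

theorem AlgCompact.pureInjective {N : Type u} [AddCommGroup N] [Module R N]
    (h : AlgCompact R N) : PureInjective R N := by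
  intro A B _ _ _ _ f hf g
  let E : Set ((B →₀ R) × N) :=
    {p | ∃ a : A, linearCombination R (id : B → B) p.1 = f a ∧ p.2 = g a}
  obtain ⟨m, hm⟩ := h B E (by
    intro F hF
    have hF' : ∀ p ∈ F, ∃ a : A, linearCombination R (id : B → B) p.1 = f a ∧ p.2 = g a :=
      fun p hp => hF hp
    classical
    choose! a ha1 ha2 using hF'
    obtain ⟨y, hy⟩ := hf.finset (F.image fun p => (p.1, a p)) ⟨id, by
      intro p hp
      obtain ⟨q, hq, rfl⟩ := Finset.mem_image.mp hp
      exact ha1 q hq⟩
    refine ⟨fun b => g (y b), fun p hp => ?_⟩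
    rw [← lc_map, hy (p.1, a p) (Finset.mem_image_of_mem _ hp), ha2 p hp])
  have h0 : ∀ ρ : B →₀ R, linearCombination R (id : B → B) ρ = 0 →
      linearCombination R m ρ = 0 := by
    intro ρ hρ
    exact hm (ρ, 0) ⟨0, by simpa using hρ, by simp⟩
  refine ⟨{ toFun := m, map_add' := fun b b' => ?_, map_smul' := fun r b => ?_ }, ?_⟩
  · have := h0 (single (b + b') 1 - single b 1 - single b' 1) (by simp)
    simp only [map_sub, linearCombination_single, one_smul] at this
    rw [sub_sub, sub_eq_zero] at this
    exact this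
  · have := h0 (single (r • b) 1 - single b r) (by simp)
    simp only [map_sub, linearCombination_single, one_smul] at this
    rw [sub_eq_zero] at this
    exact this
  · ext a
    have := hm (single (f a) 1, g a) ⟨a, by simp, rfl⟩
    simpa using this

theorem AlgCompact.retract {N N' : Type u} [AddCommGroup N] [Module R N] [AddCommGroup N']
    [Module R N'] (h : AlgCompact R N) (i : N' →ₗ[R] N) (π : N →ₗ[R] N')
    (hπ : ∀ x, π (i x) = x) : AlgCompact R N' := by
  classical
  intro K E hE
  obtain ⟨m, hm⟩ := h K {p | ∃ q ∈ E, p = (q.1, i q.2)} (by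
    intro F hF
    have hF' : ∀ p ∈ F, ∃ q ∈ E, p = (q.1, i q.2) := fun p hp => hF hp
    choose! q hq1 hq2 using hF'
    obtain ⟨m, hm⟩ := hE (F.image q) (by
      intro p hp
      obtain ⟨p', hp', rfl⟩ := Finset.mem_image.mp (Finset.mem_coe.mp hp)
      exact hq1 p' hp')
    refine ⟨fun k => i (m k), fun p hp => ?_⟩
    rw [← lc_map]
    have h1 := hm (q p) (Finset.mem_image_of_mem _ hp)
    have h2 := hq2 p hp
    have h3 : p.1 = (q p).1 := congrArg Prod.fst h2
    have h4 : p.2 = i (q p).2 := congrArg Prod.snd h2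
    rw [h3, h1, h4])
  refine ⟨fun k => π (m k), fun p hp => ?_⟩
  rw [← lc_map, hm (p.1, i p.2) ⟨p, hp, rfl⟩]
  exact hπ _

end

end Pool.Agent.SerialKdim
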