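import Pool.Agent.SerialKdim.Curve

/-!
From a rational chain of two-sided ideals to a curve in one corner of the ring.
-/

namespace Pool.Agent.SerialKdim

universe u v

theorem exists_colour {ι : Type*} (W : ι → ℚ → ℚ → Prop)
    (hmono : ∀ c t t' u' u, t ≤ t' → t' < u' → u' ≤ u → W c t' u' → W c t u)
    (C : Finset ι) : ∀ h : ℚ → ℚ, StrictMono h → (∀ t u, t < u → ∃ c ∈ C, W c (h t) (h u)) →
    ∃ c ∈ C, ∃ h : ℚ → ℚ, StrictMono h ∧ ∀ t u, t < u → W c (h t) (h u) := by
  classical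
  induction C using Finset.induction_on with
  | empty =>
    intro h _ hW
    obtain ⟨c, hc, _⟩ := hW 0 1 zero_lt_one
    simp at hc
  | insert c C _ ih =>
    intro h hh hW
    by_cases h1 : ∀ t u, t < u → W c (h t) (h u)
    · exact ⟨c, by simp, h, hh, h1⟩
    · push Not at h1
      obtain ⟨t₀, u₀, h0, hno⟩ := h1
      obtain ⟨φ, hφ, hφ'⟩ := exists_strictMono_Ioo t₀ u₀ h0
      obtain ⟨c', hc', h2⟩ := ih (h ∘ φ) (hh.comp hφ) (by
        intro t u htu
        obtain ⟨c', hc', hW'⟩ := hW (φ t) (φ u) (hφ htu)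
        rcases Finset.mem_insert.mp hc' with rfl | hc'
        · exact absurd (hmono _ _ _ _ _ (hh (hφ' t).1).le (hh (hφ htu)) (hh (hφ' u).2).le hW') hno
        · exact ⟨c', hc', hW'⟩)
      exact ⟨c', by simp [hc'], h2⟩

section

variable {R : Type u} [Ring R]

theorem exists_curve_of_chain {n : ℕ} {e : Fin n → R} (hsum : ∑ i, e i = 1)
    (hidem : ∀ i, e i * e i = e i)
    (hleft : ∀ i a b, a * e i = a → b * e i = b → (∃ c, a = c * b) ∨ (∃ c, b = c * a))
    (hright : ∀ i a b, e i * a = a → e i * b = b → (∃ c, a = b * c) ∨ (∃ c, b = a * c))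
    (g : ℚ → TwoSidedIdeal R) (hg : StrictMono g) :
    ∃ (j i : Fin n) (r s : ℚ → R), (∀ t, e i * r t = r t ∧ r t * e i = r t) ∧
      (∀ t, e j * s t = s t ∧ s t * e i = s t) ∧
      ∀ t u, t < u → (∃ c, r t = r u * c) ∧ (¬ ∃ c, r u = r t * c) ∧ (∃ c, s t = c * s u) ∧
        (¬ ∃ c, s u = c * s t) ∧
        ((¬ ∃ a b, s u * r u = a * (s u * r t) * b) ∨
          (¬ ∃ a b, s u * r u = a * (s t * r u) * b)) := by
  classical
  obtain ⟨⟨j, i⟩, _, h, hh, hW⟩ := exists_colour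
    (fun (c : Fin n × Fin n) t u => ∃ x, e c.1 * x = x ∧ x * e c.2 = x ∧ x ∈ g u ∧ x ∉ g t)
    (by
      rintro c t t' u' u h1 _ h3 ⟨x, hx1, hx2, hx3, hx4⟩
      exact ⟨x, hx1, hx2, hg.monotone h3 hx3, fun hx => hx4 (hg.monotone h1 hx)⟩)
    Finset.univ id strictMono_id (by
      intro t u htu
      obtain ⟨x, hxu, hxt⟩ := Set.exists_of_ssubset ((TwoSidedIdeal.lt_iff _ _).mp (hg htu))
      have hxu' : x ∈ g u := hxu
      have hxt' : x ∉ g t := hxt
      by_contra hno
      push Not at hno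
      apply hxt'
      have hx : x = ∑ j, ∑ i, e j * x * e i := by
        simp_rw [← Finset.mul_sum, hsum, mul_one, ← Finset.sum_mul, hsum, one_mul]
      rw [hx]
      refine sum_mem fun j _ => sum_mem fun i _ => ?_
      exact hno (j, i) (Finset.mem_univ _) (e j * x * e i) (by simp only [← mul_assoc, hidem])
        (by simp only [mul_assoc, hidem])
        ((g u).mul_mem_right _ _ ((g u).mul_mem_left _ _ hxu')))
  have : Countable (ℚ ×ₗ Bool) := inferInstanceAs (Countable (ℚ × Bool))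
  obtain ⟨F⟩ := Order.embedding_from_countable_to_dense (ℚ ×ₗ Bool) ℚ
  let lo : ℚ → ℚ := fun t => F (toLex (t, false))
  let hi : ℚ → ℚ := fun t => F (toLex (t, true))
  have hlohi : ∀ t, lo t < hi t := by
    intro t
    apply F.strictMono
    rw [Prod.Lex.toLex_lt_toLex]
    exact Or.inr ⟨rfl, Bool.false_lt_true⟩
  have hhilo : ∀ t u, t < u → hi t < lo u := by
    intro t u htu
    apply F.strictMono
    rw [Prod.Lex.toLex_lt_toLex]
    exact Or.inl htu
  choose m hm1 hm2 hm3 hm4 using fun t => hW (lo t) (hi t) (hlohi t)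
  have hnot : ∀ t u, t < u → ¬ ∃ a b, m u = a * m t * b := by
    rintro t u htu ⟨a, b, hab⟩
    apply hm4 u
    rw [hab]
    refine (g _).mul_mem_right _ _ ((g _).mul_mem_left _ _ ?_)
    exact hg.monotone (hh.monotone (hhilo t u htu).le) (hm3 t)
  obtain ⟨r, s, hr, hs, hrs⟩ := exists_ring_curve (hidem j) (hidem i) (hleft i) (hright i)
    (hright j) m (fun t => ⟨hm1 t, hm2 t⟩) (fun t u htu => ⟨by
      rcases hleft i (m t) (m u) (hm2 t) (hm2 u) with ⟨c, hc⟩ | ⟨c, hc⟩
      · exact ⟨c, 1, by rw [mul_one, hc]⟩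
      · exact absurd ⟨c, 1, by rw [mul_one, hc]⟩ (hnot t u htu), hnot t u htu⟩)
  exact ⟨j, i, r, s, hr, hs, hrs⟩

end

end Pool.Agent.SerialKdim
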