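import Pool.Agent.SerialKdim.Defs

/-!
Extraction of local idempotents from the definition of a serial ring.
-/

namespace Pool.Agent.SerialKdim

universe u v

/-- A complete set of orthogonal idempotents `e i` such that the left ideals inside `R (e i)` and
the right ideals inside `(e i) R` form chains (stated elementwise). -/
def HasSerialData (R : Type u) [Ring R] : Prop :=
  ∃ (n : ℕ) (e : Fin n → R), (∑ i, e i = 1) ∧ (∀ i, e i * e i = e i) ∧
    (∀ i j, i ≠ j → e i * e j = 0) ∧
    (∀ i a b, a * e i = a → b * e i = b → (∃ c, a = c * b) ∨ (∃ c, b = c * a)) ∧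
    (∀ i a b, e i * a = a → e i * b = b → (∃ c, a = b * c) ∨ (∃ c, b = a * c))

theorem internal_decomp {S : Type u} [Ring S] {M : Type v} [AddCommGroup M] [Module S M] {n : ℕ}
    (U : Fin n → Submodule S M) (h : DirectSum.IsInternal U) (one : M) :
    ∃ f : Fin n → M, (∀ i, f i ∈ U i) ∧ (∑ i, f i = one) ∧
      ∀ T : M →+ M, (∀ j, ∀ y ∈ U j, T y ∈ U j) → ∀ i, T one ∈ U i →
        (T (f i) = T one ∧ ∀ j, j ≠ i → T (f j) = 0) := by
  classical
  obtain ⟨v, hv⟩ := h.surjective one
  have hsum : ∀ w : (DirectSum (Fin n) fun i => U i),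
      (DirectSum.coeAddMonoidHom U) w = ∑ i, ((w i : U i) : M) := by
    intro w
    rw [DirectSum.coeAddMonoidHom_eq_dfinsuppSum, DFinsupp.sum_eq_sum_fintype]
    · rfl
    · intro i
      rfl
  refine ⟨fun i => ((v i : U i) : M), fun i => (v i).2, ?_, ?_⟩
  · rw [← hsum]; exact hv
  · intro T hT i hi
    have hTone : T one = ∑ j, T ((v j : U j) : M) := by
      rw [← map_sum, ← hsum]; exact congrArg T hv.symm
    let w : (DirectSum (Fin n) fun i => U i) :=
      DFinsupp.equivFunOnFintype.symm (fun j => (⟨T (v j : M), hT j _ (v j).2⟩ : U j))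
    have hw : ∀ j, ((w j : U j) : M) = T ((v j : U j) : M) := fun j =>
      congrArg Subtype.val (congrFun (DFinsupp.equivFunOnFintype.apply_symm_apply
        (fun j => (⟨T (v j : M), hT j _ (v j).2⟩ : U j))) j)
    have heq : w = DirectSum.of (fun i => U i) i ⟨T one, hi⟩ := by
      apply h.injective
      rw [hsum]
      have h2 : (DirectSum.coeAddMonoidHom U) (DirectSum.of (fun i => U i) i ⟨T one, hi⟩) = T one :=
        DirectSum.coeAddMonoidHom_of _ _ _
      rw [h2, hTone]
      exact Finset.sum_congr rfl fun j _ => hw j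
    constructor
    · have := hw i
      rw [heq, DirectSum.of_eq_same] at this
      exact this.symm
    · intro j hj
      have := hw j
      rw [heq, DirectSum.of_eq_of_ne _ _ _ hj] at this
      exact this.symm

theorem exists_max_of_chain {ι : Type*} (r : ι → ι → Prop) (htot : ∀ a b, r a b ∨ r b a)
    (htrans : ∀ a b c, r a b → r b c → r a c) (s : Finset ι) (hs : s.Nonempty) :
    ∃ m ∈ s, ∀ a ∈ s, r a m := by
  classical
  induction hs using Finset.Nonempty.cons_induction with
  | singleton a => exact ⟨a, by simp, fun b hb => by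
      rw [Finset.mem_singleton] at hb; subst hb; exact (htot b b).elim id id⟩
  | cons a s ha hs ih =>
    obtain ⟨m, hm, hm'⟩ := ih
    rcases htot a m with h | h
    · refine ⟨m, Finset.mem_cons_of_mem hm, fun b hb => ?_⟩
      rcases Finset.mem_cons.mp hb with rfl | hb
      · exact h
      · exact hm' b hb
    · refine ⟨a, Finset.mem_cons_self _ _, fun b hb => ?_⟩
      rcases Finset.mem_cons.mp hb with rfl | hb
      · exact (htot b b).elim id id
      · exact htrans _ _ _ (hm' b hb) h

theorem left_data {R : Type u} [Ring R] (h : FinSumUniserial R R) :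
    ∃ (n : ℕ) (f : Fin n → R), (∑ i, f i = 1) ∧ (∀ i, f i * f i = f i) ∧
    (∀ i j, i ≠ j → f i * f j = 0) ∧
    (∀ i a b, a * f i = a → b * f i = b → (∃ c, a = c * b) ∨ (∃ c, b = c * a)) := by
  obtain ⟨n, U, hU, hun⟩ := h
  obtain ⟨f, hf, hsum, hT⟩ := internal_decomp U hU (1 : R)
  have key : ∀ i, ∀ x ∈ U i, x * f i = x ∧ ∀ j, j ≠ i → x * f j = 0 := by
    intro i x hx
    have := hT (AddMonoidHom.mulLeft x) (fun j y hy => (U j).smul_mem x hy) i (by simpa using hx)
    simpa using this
  refine ⟨n, f, hsum, fun i => (key i _ (hf i)).1, fun i j hij => (key i _ (hf i)).2 j hij.symm,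
    fun i a b ha hb => ?_⟩
  have haU : a ∈ U i := by rw [← ha]; exact (U i).smul_mem a (hf i)
  have hbU : b ∈ U i := by rw [← hb]; exact (U i).smul_mem b (hf i)
  rcases hun i (Submodule.span R {⟨a, haU⟩}) (Submodule.span R {⟨b, hbU⟩}) with h1 | h1
  · have h2 := h1 (Submodule.mem_span_singleton_self _)
    rw [Submodule.mem_span_singleton] at h2
    obtain ⟨c, hc⟩ := h2
    exact Or.inl ⟨c, (congrArg Subtype.val hc).symm⟩
  · have h2 := h1 (Submodule.mem_span_singleton_self _)
    rw [Submodule.mem_span_singleton] at h2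
    obtain ⟨c, hc⟩ := h2
    exact Or.inr ⟨c, (congrArg Subtype.val hc).symm⟩

theorem right_data {R : Type u} [Ring R] (h : FinSumUniserial Rᵐᵒᵖ R) :
    ∃ (n : ℕ) (f : Fin n → R), (∑ i, f i = 1) ∧ (∀ i, f i * f i = f i) ∧
    (∀ i j, i ≠ j → f i * f j = 0) ∧
    (∀ i a b, f i * a = a → f i * b = b → (∃ c, a = b * c) ∨ (∃ c, b = a * c)) := by
  obtain ⟨n, U, hU, hun⟩ := h
  obtain ⟨f, hf, hsum, hT⟩ := internal_decomp U hU (1 : R)
  have key : ∀ i, ∀ x ∈ U i, f i * x = x ∧ ∀ j, j ≠ i → f j * x = 0 := by
    intro i x hx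
    have := hT (AddMonoidHom.mulRight x)
      (fun j y hy => (U j).smul_mem (MulOpposite.op x) hy) i (by simpa using hx)
    simpa using this
  refine ⟨n, f, hsum, fun i => (key i _ (hf i)).1, fun i j hij => (key j _ (hf j)).2 i hij,
    fun i a b ha hb => ?_⟩
  have haU : a ∈ U i := by rw [← ha]; exact (U i).smul_mem (MulOpposite.op a) (hf i)
  have hbU : b ∈ U i := by rw [← hb]; exact (U i).smul_mem (MulOpposite.op b) (hf i)
  rcases hun i (Submodule.span Rᵐᵒᵖ {⟨a, haU⟩}) (Submodule.span Rᵐᵒᵖ {⟨b, hbU⟩}) with h1 | h1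
  · have h2 := h1 (Submodule.mem_span_singleton_self _)
    rw [Submodule.mem_span_singleton] at h2
    obtain ⟨c, hc⟩ := h2
    exact Or.inl ⟨c.unop, (congrArg Subtype.val hc).symm⟩
  · have h2 := h1 (Submodule.mem_span_singleton_self _)
    rw [Submodule.mem_span_singleton] at h2
    obtain ⟨c, hc⟩ := h2
    exact Or.inr ⟨c.unop, (congrArg Subtype.val hc).symm⟩

theorem hasSerialData_of_serialRing {R : Type u} [Ring R] (h : SerialRing R) :
    HasSerialData R := by
  obtain ⟨m, f, hf1, hf2, hf3, hf4⟩ := left_data h.1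
  obtain ⟨n, e, he1, he2, he3, he4⟩ := right_data h.2
  refine ⟨n, e, he1, he2, he3, fun i a b ha hb => ?_, he4⟩
  rcases Nat.eq_zero_or_pos m with hm | hm
  · subst hm
    have h10 : (1 : R) = 0 := by rw [← hf1]; simp
    refine Or.inl ⟨0, ?_⟩
    rw [← mul_one a, h10]; simp
  · have hne : (Finset.univ : Finset (Fin m)).Nonempty := ⟨⟨0, hm⟩, Finset.mem_univ _⟩
    obtain ⟨q, _, hq⟩ := exists_max_of_chain
      (fun j k : Fin m => ∃ c, e i * f j * e i = e i * f k * e i * c)
      (fun j k => he4 i _ _ (by simp only [← mul_assoc, he2]) (by simp only [← mul_assoc, he2]))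
      (fun j k l ⟨c, hc⟩ ⟨d, hd⟩ => ⟨d * c, by rw [hc, hd, mul_assoc]⟩) Finset.univ hne
    choose! c hc using hq
    have hsum : e i = e i * f q * e i * ∑ j, c j := by
      calc e i = e i * (∑ j, f j) * e i := by rw [hf1, mul_one, he2]
        _ = ∑ j, e i * f j * e i := by rw [Finset.mul_sum, Finset.sum_mul]
        _ = ∑ j, e i * f q * e i * c j := Finset.sum_congr rfl fun j _ => hc j (Finset.mem_univ _)
        _ = _ := by rw [Finset.mul_sum]
    set g := ∑ j, c j with hg
    have key : ∀ x, x * e i = x → x * f q * (e i * g) = x := by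
      intro x hx
      calc x * f q * (e i * g) = (x * e i) * f q * (e i * g) := by rw [hx]
        _ = x * (e i * f q * e i * g) := by simp only [mul_assoc]
        _ = x := by rw [← hsum, hx]
    rcases hf4 q (a * f q) (b * f q) (by rw [mul_assoc, hf2]) (by rw [mul_assoc, hf2]) with
      ⟨d, hd⟩ | ⟨d, hd⟩
    · refine Or.inl ⟨d, ?_⟩
      calc a = a * f q * (e i * g) := (key a ha).symm
        _ = d * (b * f q * (e i * g)) := by rw [hd]; simp only [mul_assoc]
        _ = d * b := by rw [key b hb]
    · refine Or.inr ⟨d, ?_⟩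
      calc b = b * f q * (e i * g) := (key b hb).symm
        _ = d * (a * f q * (e i * g)) := by rw [hd]; simp only [mul_assoc]
        _ = d * a := by rw [key a ha]

/-- Serial data pass to the opposite ring. -/
theorem HasSerialData.op {R : Type u} [Ring R] (h : HasSerialData R) : HasSerialData Rᵐᵒᵖ := by
  obtain ⟨n, e, he1, he2, he3, he4, he5⟩ := h
  refine ⟨n, fun i => MulOpposite.op (e i), ?_, fun i => ?_, fun i j hij => ?_,
    fun i a b ha hb => ?_, fun i a b ha hb => ?_⟩
  · have := map_sum (MulOpposite.opAddEquiv (α := R)) e Finset.univ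
    rw [he1] at this
    exact this.symm
  · rw [← MulOpposite.op_mul, he2]
  · rw [← MulOpposite.op_mul, he3 _ _ hij.symm, MulOpposite.op_zero]
  · have ha' : e i * a.unop = a.unop := by
      have := congrArg MulOpposite.unop ha
      simpa using this
    have hb' : e i * b.unop = b.unop := by
      have := congrArg MulOpposite.unop hb
      simpa using this
    rcases he5 i _ _ ha' hb' with ⟨c, hc⟩ | ⟨c, hc⟩
    · exact Or.inl ⟨MulOpposite.op c, by apply MulOpposite.unop_injective; simpa using hc⟩
    · exact Or.inr ⟨MulOpposite.op c, by apply MulOpposite.unop_injective; simpa using hc⟩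
  · have ha' : a.unop * e i = a.unop := by
      have := congrArg MulOpposite.unop ha
      simpa using this
    have hb' : b.unop * e i = b.unop := by
      have := congrArg MulOpposite.unop hb
      simpa using this
    rcases he4 i _ _ ha' hb' with ⟨c, hc⟩ | ⟨c, hc⟩
    · exact Or.inl ⟨MulOpposite.op c, by apply MulOpposite.unop_injective; simpa using hc⟩
    · exact Or.inr ⟨MulOpposite.op c, by apply MulOpposite.unop_injective; simpa using hc⟩

end Pool.Agent.SerialKdim
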