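import Pool.Agent.SerialKdim.Krull
import Pool.Agent.SerialKdim.RingData

/-!
From a ring with serial data whose lattice of two-sided ideals has no Krull dimension to a
curve of pairs of elements.
-/

namespace Pool.Agent.SerialKdim

universe u v

section

variable {R : Type u} [Ring R]

/-- Elements of the corner `qRq`, ordered by the right ideal they generate. -/
def RA (q : R) : Type u := {r : R // q * r = r ∧ r * q = r}

instance (q : R) : Preorder (RA q) where
  le x y := ∃ c, x.1 = y.1 * c
  le_refl x := ⟨1, (mul_one _).symm⟩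
  le_trans x y z := by
    rintro ⟨c, hc⟩ ⟨d, hd⟩
    exact ⟨d * c, by rw [hc, hd, mul_assoc]⟩

/-- Elements of the corner `pRq`, ordered by the left ideal they generate. -/
def LB (p q : R) : Type u := {s : R // p * s = s ∧ s * q = s}

instance (p q : R) : Preorder (LB p q) where
  le x y := ∃ c, x.1 = c * y.1
  le_refl x := ⟨1, (one_mul _).symm⟩
  le_trans x y z := by
    rintro ⟨c, hc⟩ ⟨d, hd⟩
    exact ⟨c * d, by rw [hc, hd, mul_assoc]⟩

/-- Elements of the corner `pRq`, ordered by two-sided divisibility. -/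
def LV (p q : R) : Type u := {s : R // p * s = s ∧ s * q = s}

instance (p q : R) : Preorder (LV p q) where
  le x y := ∃ a b, x.1 = a * y.1 * b
  le_refl x := ⟨1, 1, by rw [one_mul, mul_one]⟩
  le_trans x y z := by
    rintro ⟨a, b, hc⟩ ⟨a', b', hd⟩
    exact ⟨a * a', b' * b, by rw [hc, hd]; simp only [mul_assoc]⟩

/-- The product of an element of `LB` and an element of `RA`. -/
def mkLV {p q : R} (x : RA q) (y : LB p q) : LV p q :=
  ⟨y.1 * x.1, by rw [← mul_assoc, y.2.1], by rw [mul_assoc, x.2.2]⟩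

/-- The level of a pair. -/
noncomputable def lvl {p q : R} (a : Antisymmetrization (RA q) (· ≤ ·))
    (b : Antisymmetrization (LB p q) (· ≤ ·)) : Antisymmetrization (LV p q) (· ≤ ·) :=
  toAntisymmetrization (· ≤ ·) (mkLV (ofAntisymmetrization _ a) (ofAntisymmetrization _ b))

theorem mkLV_mono {p q : R} {x x' : RA q} {y y' : LB p q} (h : x ≤ x') (h' : y ≤ y') :
    mkLV x y ≤ mkLV x' y' := by
  obtain ⟨c, hc⟩ := h
  obtain ⟨d, hd⟩ := h'
  exact ⟨d, c, by simp only [mkLV]; rw [hc, hd]; simp only [mul_assoc]⟩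

theorem lvl_mk {p q : R} (x : RA q) (y : LB p q) :
    lvl (toAntisymmetrization (· ≤ ·) x) (toAntisymmetrization (· ≤ ·) y) =
      toAntisymmetrization (· ≤ ·) (mkLV x y) := by
  have h1 : ofAntisymmetrization (· ≤ ·) (toAntisymmetrization (· ≤ ·) x) ≤ x := by
    rw [← toAntisymmetrization_le_toAntisymmetrization_iff,
      toAntisymmetrization_ofAntisymmetrization]
  have h2 : x ≤ ofAntisymmetrization (· ≤ ·) (toAntisymmetrization (· ≤ ·) x) := by
    rw [← toAntisymmetrization_le_toAntisymmetrization_iff,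
      toAntisymmetrization_ofAntisymmetrization]
  have h3 : ofAntisymmetrization (· ≤ ·) (toAntisymmetrization (· ≤ ·) y) ≤ y := by
    rw [← toAntisymmetrization_le_toAntisymmetrization_iff,
      toAntisymmetrization_ofAntisymmetrization]
  have h4 : y ≤ ofAntisymmetrization (· ≤ ·) (toAntisymmetrization (· ≤ ·) y) := by
    rw [← toAntisymmetrization_le_toAntisymmetrization_iff,
      toAntisymmetrization_ofAntisymmetrization]
  apply le_antisymm
  · exact mkLV_mono h1 h3
  · exact mkLV_mono h2 h4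

theorem exists_ring_curve {p q : R} (hp : p * p = p) (hq : q * q = q)
    (hLq : ∀ a b : R, a * q = a → b * q = b → (∃ c, a = c * b) ∨ (∃ c, b = c * a))
    (hRq : ∀ a b : R, q * a = a → q * b = b → (∃ c, a = b * c) ∨ (∃ c, b = a * c))
    (hRp : ∀ a b : R, p * a = a → p * b = b → (∃ c, a = b * c) ∨ (∃ c, b = a * c))
    (m : ℚ → R) (hm : ∀ t, p * m t = m t ∧ m t * q = m t)
    (hlt : ∀ t u, t < u → (∃ a b, m t = a * m u * b) ∧ ¬ ∃ a b, m u = a * m t * b) :
    ∃ r s : ℚ → R, (∀ t, q * r t = r t ∧ r t * q = r t) ∧ (∀ t, p * s t = s t ∧ s t * q = s t) ∧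
      ∀ t u, t < u → (∃ c, r t = r u * c) ∧ (¬ ∃ c, r u = r t * c) ∧ (∃ c, s t = c * s u) ∧
        (¬ ∃ c, s u = c * s t) ∧
        ((¬ ∃ a b, s u * r u = a * (s u * r t) * b) ∨
          (¬ ∃ a b, s u * r u = a * (s t * r u) * b)) := by
  classical
  have : @Std.Total (RA q) (· ≤ ·) := ⟨fun x y => hRq x.1 y.1 x.2.1 y.2.1⟩
  have : @Std.Total (LB p q) (· ≤ ·) := ⟨fun x y => hLq x.1 y.1 x.2.2 y.2.2⟩
  have : @Std.Total (LV p q) (· ≤ ·) := ⟨fun x y => by
    rcases hLq x.1 y.1 x.2.2 y.2.2 with ⟨c, hc⟩ | ⟨c, hc⟩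
    · exact Or.inl ⟨c, 1, by rw [mul_one, hc]⟩
    · exact Or.inr ⟨c, 1, by rw [mul_one, hc]⟩⟩
  have hivt : IVT (lvl (p := p) (q := q)) := by
    refine ⟨?_, ?_, ?_, ?_⟩
    · intro b a a'
      induction a using Antisymmetrization.ind with | _ x
      induction a' using Antisymmetrization.ind with | _ x'
      induction b using Antisymmetrization.ind with | _ y
      intro h
      rw [lvl_mk, lvl_mk]
      exact mkLV_mono h le_rfl
    · intro a b b'
      induction a using Antisymmetrization.ind with | _ x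
      induction b using Antisymmetrization.ind with | _ y
      induction b' using Antisymmetrization.ind with | _ y'
      intro h
      rw [lvl_mk, lvl_mk]
      exact mkLV_mono le_rfl h
    · intro b a a' z
      induction a using Antisymmetrization.ind with | _ x
      induction a' using Antisymmetrization.ind with | _ x'
      induction b using Antisymmetrization.ind with | _ y
      induction z using Antisymmetrization.ind with | _ z
      rw [lvl_mk, lvl_mk]
      intro h1 h2 h3
      have h1' : x ≤ x' := h1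
      have h2' : mkLV x y ≤ z := h2
      have h3' : z ≤ mkLV x' y := h3
      rcases hRp z.1 (y.1 * x'.1) z.2.1 (by rw [← mul_assoc, y.2.1]) with ⟨c, hc⟩ | ⟨c, hc⟩
      · let w : RA q := ⟨x'.1 * c * q, by simp only [← mul_assoc, x'.2.1], by
          simp only [mul_assoc, hq]⟩
        have hw : y.1 * w.1 = z.1 := by
          simp only [w]
          rw [← mul_assoc, ← mul_assoc, ← hc, z.2.2]
        rcases hRq x.1 w.1 x.2.1 w.2.1 with ⟨d, hd⟩ | ⟨d, hd⟩
        · refine ⟨toAntisymmetrization (· ≤ ·) w, ⟨d, hd⟩, ⟨c * q, by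
            simp only [w, mul_assoc]⟩, ?_⟩
          rw [lvl_mk]
          congr 1
          exact Subtype.ext hw
        · refine ⟨toAntisymmetrization (· ≤ ·) x, le_rfl, h1, ?_⟩
          rw [lvl_mk]
          apply le_antisymm h2
          refine ⟨1, d, ?_⟩
          simp only [mkLV]
          rw [one_mul, ← hw, hd, mul_assoc]
      · refine ⟨toAntisymmetrization (· ≤ ·) x', h1, le_rfl, ?_⟩
        rw [lvl_mk]
        apply le_antisymm _ h3
        exact ⟨1, c, by simp only [mkLV]; rw [one_mul, hc]⟩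
    · intro a b b' z
      induction a using Antisymmetrization.ind with | _ x
      induction b using Antisymmetrization.ind with | _ y
      induction b' using Antisymmetrization.ind with | _ y'
      induction z using Antisymmetrization.ind with | _ z
      rw [lvl_mk, lvl_mk]
      intro h1 h2 h3
      rcases hLq z.1 (y'.1 * x.1) z.2.2 (by rw [mul_assoc, x.2.2]) with ⟨c, hc⟩ | ⟨c, hc⟩
      · let w : LB p q := ⟨p * (c * y'.1), by simp only [← mul_assoc, hp], by
          simp only [mul_assoc, y'.2.2]⟩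
        have hw : w.1 * x.1 = z.1 := by
          simp only [w]
          rw [mul_assoc, mul_assoc, ← hc, z.2.1]
        rcases hLq y.1 w.1 y.2.2 w.2.2 with ⟨d, hd⟩ | ⟨d, hd⟩
        · refine ⟨toAntisymmetrization (· ≤ ·) w, ⟨d, hd⟩, ⟨p * c, by
            simp only [w, mul_assoc]⟩, ?_⟩
          rw [lvl_mk]
          congr 1
          exact Subtype.ext hw
        · refine ⟨toAntisymmetrization (· ≤ ·) y, le_rfl, h1, ?_⟩
          rw [lvl_mk]
          apply le_antisymm h2
          refine ⟨d, 1, ?_⟩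
          simp only [mkLV]
          rw [mul_one, ← hw, hd, mul_assoc]
      · refine ⟨toAntisymmetrization (· ≤ ·) y', h1, le_rfl, ?_⟩
        rw [lvl_mk]
        apply le_antisymm _ h3
        exact ⟨c, 1, by simp only [mkLV]; rw [mul_one, hc]⟩
  -- the initial box
  let mV : ℚ → LV p q := fun t => ⟨m t, hm t⟩
  let mB : ℚ → LB p q := fun t => ⟨m t, hm t⟩
  let M : ℚ → Antisymmetrization (LV p q) (· ≤ ·) := fun t => toAntisymmetrization (· ≤ ·) (mV t)
  have hM : StrictMono M := by
    intro t u htu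
    exact lt_of_le_not_ge (α := LV p q) (hlt t u htu).1 (hlt t u htu).2
  let b : ℚ → Antisymmetrization (LB p q) (· ≤ ·) := fun t => toAntisymmetrization (· ≤ ·) (mB t)
  let top : RA q := ⟨q, hq, hq⟩
  have htop : ∀ t, lvl (toAntisymmetrization (· ≤ ·) top) (b t) = M t := by
    intro t
    refine (lvl_mk top (mB t)).trans ?_
    exact congrArg _ (Subtype.ext (hm t).2)
  have hrich : ∀ t u, t < u → Rich (M t) (M u) := by
    intro t u htu
    obtain ⟨φ, hφ, hφ'⟩ := exists_strictMono_Ioo t u htu
    exact ⟨M ∘ φ, hM.comp hφ, fun s => ⟨(hM (hφ' s).1).le, (hM (hφ' s).2).le⟩⟩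
  have hbb : b 2 ≤ b 3 := by
    by_contra hno
    push Not at hno
    have h1 := hivt.monoB (toAntisymmetrization (· ≤ ·) top) _ _ hno.le
    rw [htop, htop] at h1
    exact absurd (hM (show (2 : ℚ) < 3 by norm_num)) (not_lt.mpr h1)
  have hRB : Rich (b 2) (b 3) := by
    refine hivt.richB (a := toAntisymmetrization (· ≤ ·) top) hbb ?_
    rw [htop, htop]
    exact hrich 2 3 (by norm_num)
  let bot : RA q := ⟨0, mul_zero _, zero_mul _⟩
  obtain ⟨a, ha1, ha2, ha3⟩ := hivt.ivtA (b 2) (toAntisymmetrization (· ≤ ·) bot)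
    (toAntisymmetrization (· ≤ ·) top) (M 1) ⟨0, by simp [bot]⟩
    (by
      refine (lvl_mk bot (mB 2)).le.trans ?_
      exact ⟨0, 0, by simp [mkLV, bot]⟩)
    (by
      rw [htop]
      exact (hM (by norm_num)).le)
  have hRA : Rich a (toAntisymmetrization (· ≤ ·) top) := by
    refine hivt.richA (b := b 2) ha2 ?_
    rw [ha3, htop]
    exact hrich 1 2 (by norm_num)
  obtain ⟨f, g, hf, hg, hfg⟩ := hivt.exists_nonflat_curve hRA hRB
    (by rw [ha3, htop]; exact hrich 1 3 (by norm_num))
  refine ⟨fun t => (ofAntisymmetrization _ (f t)).1, fun t => (ofAntisymmetrization _ (g t)).1,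
    fun t => (ofAntisymmetrization _ (f t)).2, fun t => (ofAntisymmetrization _ (g t)).2,
    fun t u htu => ?_⟩
  have h1 : ofAntisymmetrization (· ≤ ·) (f t) < ofAntisymmetrization (· ≤ ·) (f u) := by
    rw [ofAntisymmetrization_lt_ofAntisymmetrization_iff]
    exact hf htu
  have h2 : ofAntisymmetrization (· ≤ ·) (g t) < ofAntisymmetrization (· ≤ ·) (g u) := by
    rw [ofAntisymmetrization_lt_ofAntisymmetrization_iff]
    exact hg htu
  refine ⟨h1.le, not_le_of_gt h1, h2.le, not_le_of_gt h2, ?_⟩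
  rcases hfg t u htu with h3 | h3
  · left
    rintro ⟨x, y, hxy⟩
    exact not_le_of_gt h3 ⟨x, y, hxy⟩
  · right
    rintro ⟨x, y, hxy⟩
    exact not_le_of_gt h3 ⟨x, y, hxy⟩

end

end Pool.Agent.SerialKdim
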