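import Mathlib

/-!
Definitions used in the statement: serial rings, pure-injective and superdecomposable modules,
Krull dimension (deviation) of a lattice.
-/

namespace Pool.Agent.SerialKdim

universe u v

/-- A module is uniserial if its submodules are totally ordered by inclusion. -/
def Uniserial (R : Type u) [Ring R] (M : Type v) [AddCommGroup M] [Module R M] : Prop :=
  ∀ A B : Submodule R M, A ≤ B ∨ B ≤ A

/-- A module is a finite direct sum of uniserial modules. -/
def FinSumUniserial (R : Type u) [Ring R] (M : Type v) [AddCommGroup M] [Module R M] : Prop :=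
  ∃ (n : ℕ) (U : Fin n → Submodule R M), DirectSum.IsInternal U ∧ ∀ i, Uniserial R (U i)

/-- A ring is serial if it is a finite direct sum of uniserial modules both as a left module and
as a right module (a left module over the opposite ring) over itself. -/
def SerialRing (R : Type u) [Ring R] : Prop :=
  FinSumUniserial R R ∧ FinSumUniserial Rᵐᵒᵖ R

/-- A pure embedding: an injective linear map `f` from `A` to `B` such that each finite system of
linear equations with constants in `A` that is solvable in `B` is solvable in `A`. -/
def PureEmbedding {R : Type u} [Ring R] {A B : Type v} [AddCommGroup A] [Module R A]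
    [AddCommGroup B] [Module R B] (f : A →ₗ[R] B) : Prop :=
  Function.Injective f ∧
  ∀ (m n : ℕ) (c : Fin m → Fin n → R) (a : Fin m → A),
    (∃ y : Fin n → B, ∀ i, ∑ j, c i j • y j = f (a i)) →
    ∃ y : Fin n → A, ∀ i, ∑ j, c i j • y j = a i

/-- A module is pure-injective if it is injective with respect to pure embeddings. -/
def PureInjective (R : Type u) [Ring R] (N : Type v) [AddCommGroup N] [Module R N] : Prop :=
  ∀ (A B : Type v) [AddCommGroup A] [Module R A] [AddCommGroup B] [Module R B]
    (f : A →ₗ[R] B), PureEmbedding f → ∀ g : A →ₗ[R] N, ∃ h : B →ₗ[R] N, h ∘ₗ f = g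

/-- A module is indecomposable if it is nonzero and is not the direct sum of two nonzero
submodules. -/
def Indecomposable (R : Type u) [Ring R] (N : Type v) [AddCommGroup N] [Module R N] : Prop :=
  Nontrivial N ∧ ∀ A B : Submodule R N, IsCompl A B → A = ⊥ ∨ B = ⊥

/-- A module is superdecomposable if it is nonzero and has no indecomposable direct summand. -/
def Superdecomposable (R : Type u) [Ring R] (N : Type v) [AddCommGroup N] [Module R N] : Prop :=
  Nontrivial N ∧ ∀ A B : Submodule R N, IsCompl A B → ¬ Indecomposable R A

/-- `KdimLE α a b`: the interval from `a` to `b` has Krull dimension (deviation) at most `α`: for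
every descending chain in the interval all but finitely many of the intervals
`[f (i + 1), f i]` have Krull dimension less than `α`, that is, they are trivial (Krull dimension
`-1`) or of Krull dimension at most `β` for some ordinal `β < α`. -/
def KdimLE {L : Type v} [PartialOrder L] (α : Ordinal.{v}) (a b : L) : Prop :=
  ∀ f : ℕ → L, Antitone f → (∀ i, a ≤ f i ∧ f i ≤ b) →
    ∃ n, ∀ i, n ≤ i → (f (i + 1) = f i ∨ ∃ β, ∃ (_ : β < α), KdimLE β (f (i + 1)) (f i))
termination_by α

/-- A bounded lattice has Krull dimension if its Krull dimension is at most `α` for some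
ordinal `α`. -/
def HasKrullDim (L : Type v) [Lattice L] [BoundedOrder L] : Prop :=
  ∃ α : Ordinal.{v}, KdimLE α (⊥ : L) ⊤

end Pool.Agent.SerialKdim
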