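import Pool.Agent.SerialKdim.NormalForm

/-!
Distributivity consequence of the normal form, and monotonicity of basic formulas.
-/

namespace Pool.Agent.SerialKdim

universe u v

section

variable {R : Type u} [Ring R]

theorem bas_mono_left {r r' s c : R} (hr : r = r' * c) {X : Type v} [AddCommGroup X] [Module R X]
    {x : X} (h : (bas r s).Holds x) : (bas r' s).Holds x := by
  rw [bas_holds] at h ⊢
  obtain ⟨w, hw⟩ := h
  exact ⟨c • w, by rw [smul_smul r', ← hr, hw]⟩

theorem bas_mono_right {r s s' c : R} (hs : s = c * s') {X : Type v} [AddCommGroup X] [Module R X]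
    {x : X} (h : (bas r s').Holds x) : (bas r s).Holds x := by
  rw [bas_holds] at h ⊢
  obtain ⟨w, hw⟩ := h
  exact ⟨w, by rw [hs, mul_smul, hw, mul_smul]⟩

theorem bas_add {r s : R} {X : Type v} [AddCommGroup X] [Module R X]
    {x y : X} (h : (bas r s).Holds x) (h' : (bas r s).Holds y) : (bas r s).Holds (x + y) := by
  rw [bas_holds] at h h' ⊢
  obtain ⟨w, hw⟩ := h
  obtain ⟨w', hw'⟩ := h'
  exact ⟨w + w', by rw [smul_add, smul_add, hw, hw', smul_add]⟩

theorem exists_min_pair {r s : R} (T : R × R → Prop) (hT : T (r, s)) {e : R} (hr : e * r = r)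
    (hright : ∀ a b : R, e * a = a → e * b = b → (∃ c, a = b * c) ∨ (∃ c, b = a * c))
    (L : List (R × R)) (hL : ∀ p ∈ L, e * p.1 = p.1) :
    ∃ p : R × R, (p = (r, s) ∨ p ∈ L) ∧ T p ∧ e * p.1 = p.1 ∧
      ∀ p' ∈ L, T p' → ∃ c, p.1 = p'.1 * c := by
  induction L with
  | nil => exact ⟨(r, s), Or.inl rfl, hT, hr, by simp⟩
  | cons a L ih =>
    obtain ⟨p, hp1, hp2, hp3, hp4⟩ := ih fun p hp => hL p (List.mem_cons_of_mem _ hp)
    have hmem : p = (r, s) ∨ p ∈ a :: L := hp1.imp id fun h => List.mem_cons_of_mem _ h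
    by_cases ha : T a
    · rcases hright p.1 a.1 hp3 (hL a (by simp)) with ⟨c, hc⟩ | ⟨c, hc⟩
      · refine ⟨p, hmem, hp2, hp3, fun p' hp' hT' => ?_⟩
        rcases List.mem_cons.mp hp' with rfl | hp'
        · exact ⟨c, hc⟩
        · exact hp4 p' hp' hT'
      · refine ⟨a, Or.inr (by simp), ha, hL a (by simp), fun p' hp' hT' => ?_⟩
        rcases List.mem_cons.mp hp' with rfl | hp'
        · exact ⟨1, (mul_one _).symm⟩
        · obtain ⟨d, hd⟩ := hp4 p' hp' hT'
          exact ⟨d * c, by rw [hc, hd, mul_assoc]⟩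
    · refine ⟨p, hmem, hp2, hp3, fun p' hp' hT' => ?_⟩
      rcases List.mem_cons.mp hp' with rfl | hp'
      · exact absurd hT' ha
      · exact hp4 p' hp' hT'

/-- Distributivity in the form needed for splitting. -/
theorem NF.dist {e : R} {F : ∀ (X : Type u) [AddCommGroup X] [Module R X], X → Prop}
    (hF : NF e F)
    (hleft : ∀ a b : R, a * e = a → b * e = b → (∃ c, a = c * b) ∨ (∃ c, b = c * a))
    (hright : ∀ a b : R, e * a = a → e * b = b → (∃ c, a = b * c) ∨ (∃ c, b = a * c))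
    {X : Type u} [AddCommGroup X] [Module R X] {y : X} (hy : e • y = y) {r s : R}
    (hr : e * r = r) (hs : s * e = s) (hrs : (bas r s).Holds y) (hFy : F X y) :
    ∃ w : X, s • (r • w) = s • y ∧ F X (r • w) := by
  obtain ⟨L, hL1, hL2⟩ := hF
  have hLy := (hL2 X y hy).mp hFy
  obtain ⟨p, hp1, ⟨⟨c, hc⟩, d, hd⟩, hp3, hp4⟩ := exists_min_pair (r := r) (s := s)
    (fun p => (∃ c, p.1 = r * c) ∧ (∃ d, s = d * p.2))
    ⟨⟨1, (mul_one _).symm⟩, ⟨1, (one_mul _).symm⟩⟩ hr hright L fun p hp => (hL1 p hp).1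
  have hpy : (bas p.1 p.2).Holds y := by
    rcases hp1 with rfl | hp1
    · exact hrs
    · exact hLy p hp1
  obtain ⟨w, hw⟩ := bas_holds.mp hpy
  have hsa : s • (r • (c • w)) = s • y := by
    have : r • (c • w) = p.1 • w := by rw [smul_smul, ← hc]
    rw [this, hd, mul_smul, hw, mul_smul]
  refine ⟨c • w, hsa, ?_⟩
  have hea : e • (r • (c • w)) = r • (c • w) := by rw [smul_smul, hr]
  rw [hL2 X _ hea]
  intro p' hp'
  rw [bas_holds]
  by_cases h1 : ∃ c', p'.1 = r * c'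
  · by_cases h2 : ∃ d', s = d' * p'.2
    · obtain ⟨c'', hc''⟩ := hp4 p' hp' ⟨h1, h2⟩
      refine ⟨c'' • w, ?_⟩
      rw [smul_smul p'.1, ← hc'', smul_smul r, ← hc]
    · rcases hleft s p'.2 hs (hL1 p' hp').2 with h3 | ⟨d', hd'⟩
      · exact absurd h3 h2
      · obtain ⟨w', hw'⟩ := bas_holds.mp (hLy p' hp')
        refine ⟨w', ?_⟩
        rw [hw', hd', mul_smul, ← hsa, mul_smul]
  · rcases hright p'.1 r (hL1 p' hp').1 hr with h3 | ⟨c', hc'⟩
    · exact absurd h3 h1
    · refine ⟨c' • (c • w), ?_⟩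
      rw [smul_smul p'.1, ← hc']

end

end Pool.Agent.SerialKdim
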