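import Pool.Agent.SerialKdim.AlgComp

/-!
Every module embeds purely in an algebraically compact module (a double dual with values in the
circle).
-/

namespace Pool.Agent.SerialKdim

universe u

open Finsupp

/-- The double dual with values in the circle. -/
def DD (X : Type u) [AddCommGroup X] : Type u := (X →+ UnitAddCircle) →+ UnitAddCircle

section

variable {R : Type u} [Ring R] {X : Type u} [AddCommGroup X] [Module R X]

instance : AddCommGroup (DD X) := inferInstanceAs (AddCommGroup ((X →+ UnitAddCircle) →+ UnitAddCircle))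

/-- The endomorphism of the additive group given by a scalar. -/
def smulHom (r : R) : X →+ X := DistribSMul.toAddMonoidHom X r

theorem smulHom_apply (r : R) (x : X) : smulHom r x = r • x := rfl

/-- The underlying homomorphism of an element of the double dual. -/
def DD.hom (F : DD X) : (X →+ UnitAddCircle) →+ UnitAddCircle := F

theorem DD.ext {F G : DD X} (h : ∀ χ, F.hom χ = G.hom χ) : F = G :=
  AddMonoidHom.ext h

instance : SMul R (DD X) :=
  ⟨fun r F => ({ toFun := fun χ => F.hom (χ.comp (smulHom r))
                 map_zero' := by rw [AddMonoidHom.zero_comp, map_zero]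
                 map_add' := fun χ χ' => by rw [AddMonoidHom.add_comp, map_add] } :
                (X →+ UnitAddCircle) →+ UnitAddCircle)⟩

theorem DD.smul_hom (r : R) (F : DD X) (χ : X →+ UnitAddCircle) :
    (r • F).hom χ = F.hom (χ.comp (smulHom r)) := rfl

theorem DD.add_hom (F G : DD X) (χ : X →+ UnitAddCircle) :
    (F + G).hom χ = F.hom χ + G.hom χ := rfl

theorem DD.zero_hom (χ : X →+ UnitAddCircle) : (0 : DD X).hom χ = 0 := rfl

instance : Module R (DD X) where
  one_smul F := by
    apply DD.ext; intro χ; rw [DD.smul_hom]; congr 1; ext x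
    simp [smulHom_apply]
  mul_smul r s F := by
    apply DD.ext; intro χ; rw [DD.smul_hom, DD.smul_hom, DD.smul_hom]; congr 1; ext x
    simp [smulHom_apply, mul_smul]
  smul_zero r := by
    apply DD.ext; intro χ; rw [DD.smul_hom, DD.zero_hom, DD.zero_hom]
  smul_add r F G := by
    apply DD.ext; intro χ; rw [DD.smul_hom, DD.add_hom, DD.add_hom, DD.smul_hom, DD.smul_hom]
  add_smul r s F := by
    apply DD.ext; intro χ
    rw [DD.add_hom, DD.smul_hom, DD.smul_hom, DD.smul_hom, ← map_add]
    congr 1; ext x
    simp [smulHom_apply, add_smul]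
  zero_smul F := by
    apply DD.ext; intro χ
    rw [DD.smul_hom, DD.zero_hom]
    have : χ.comp (smulHom (0 : R)) = 0 := by ext x; simp [smulHom_apply]
    rw [this, map_zero]

/-- The evaluation map. -/
def DD.ev : X →ₗ[R] DD X where
  toFun x := (({ toFun := fun χ => χ x
                 map_zero' := rfl
                 map_add' := fun _ _ => rfl } : (X →+ UnitAddCircle) →+ UnitAddCircle) : DD X)
  map_add' x y := by apply DD.ext; intro χ; exact map_add χ x y
  map_smul' r x := by apply DD.ext; intro χ; rfl

theorem DD.ev_hom (x : X) (χ : X →+ UnitAddCircle) : (DD.ev (R := R) x).hom χ = χ x := rfl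

theorem exists_circle_char {A : Type*} [AddCommGroup A] {a : A} (ha : a ≠ 0) :
    ∃ χ : A →+ UnitAddCircle, χ a ≠ 0 := by
  obtain ⟨c, hc⟩ := CharacterModule.exists_character_apply_ne_zero_of_ne_zero ha
  let ι : AddCircle (1 : ℚ) →+ UnitAddCircle :=
    QuotientAddGroup.map (AddSubgroup.zmultiples (1 : ℚ)) (AddSubgroup.zmultiples (1 : ℝ))
      (Rat.castHom ℝ).toAddMonoidHom (by
        intro q hq
        obtain ⟨n, hn⟩ := AddSubgroup.mem_zmultiples_iff.mp hq
        exact AddSubgroup.mem_zmultiples_iff.mpr ⟨n, by rw [← hn]; simp⟩)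
  have hι : Function.Injective ι := by
    rw [injective_iff_map_eq_zero]
    intro q hq
    induction q using QuotientAddGroup.induction_on with
    | H q =>
      have h1 : ((q : ℝ) : UnitAddCircle) = 0 := hq
      rw [QuotientAddGroup.eq_zero_iff] at h1 ⊢
      obtain ⟨n, hn⟩ := AddSubgroup.mem_zmultiples_iff.mp h1
      refine AddSubgroup.mem_zmultiples_iff.mpr ⟨n, ?_⟩
      have h2 : ((n : ℚ) : ℝ) = (q : ℝ) := by
        rw [← hn]; simp
      have h3 : (n : ℚ) = q := by exact_mod_cast h2
      rw [← h3]; simp
  refine ⟨ι.comp c, fun h => hc ?_⟩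
  apply hι
  rw [map_zero]; exact h

theorem DD.sum_hom {ι : Type*} (s : Finset ι) (F : ι → DD X) (χ : X →+ UnitAddCircle) :
    (∑ i ∈ s, F i).hom χ = ∑ i ∈ s, (F i).hom χ := by
  classical
  induction s using Finset.induction_on with
  | empty => rfl
  | insert a s ha ih => rw [Finset.sum_insert ha, Finset.sum_insert ha, DD.add_hom, ih]

theorem DD.ev_pure : PureEmbedding (DD.ev : X →ₗ[R] DD X) := by
  constructor
  · rw [injective_iff_map_eq_zero]
    intro x hx
    by_contra hne
    obtain ⟨χ, hχ⟩ := exists_circle_char hne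
    exact hχ (by rw [← DD.ev_hom (R := R), hx]; rfl)
  · intro m n c a hy
    obtain ⟨y, hy⟩ := hy
    let D : (Fin n → X) →+ (Fin m → X) :=
      { toFun := fun z i => ∑ j, c i j • z j
        map_zero' := by funext i; simp
        map_add' := fun z z' => by funext i; simp [smul_add, Finset.sum_add_distrib] }
    by_contra hno
    push Not at hno
    have ha : (QuotientAddGroup.mk a : (Fin m → X) ⧸ D.range) ≠ 0 := by
      intro h0
      rw [QuotientAddGroup.eq_zero_iff] at h0
      obtain ⟨z, hz⟩ := h0
      obtain ⟨i, hi⟩ := hno z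
      exact hi (congrFun hz i)
    obtain ⟨χ, hχ⟩ := exists_circle_char ha
    let χ' : (Fin m → X) →+ UnitAddCircle := χ.comp (QuotientAddGroup.mk' D.range)
    have hχD : ∀ z, χ' (D z) = 0 := by
      intro z
      have : (QuotientAddGroup.mk' D.range) (D z) = 0 :=
        (QuotientAddGroup.eq_zero_iff _).mpr ⟨z, rfl⟩
      simp only [χ', AddMonoidHom.comp_apply, this, map_zero]
    let χi : Fin m → (X →+ UnitAddCircle) := fun i => χ'.comp (AddMonoidHom.single (fun _ => X) i)
    have hχsum : ∀ w : Fin m → X, χ' w = ∑ i, χi i (w i) := by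
      intro w
      have : w = ∑ i, Pi.single i (w i) := (Finset.univ_sum_single w).symm
      conv_lhs => rw [this]
      rw [map_sum]
      rfl
    have hcol : ∀ j, ∑ i, (χi i).comp (smulHom (c i j)) = 0 := by
      intro j
      ext x
      have h1 := hχD (Pi.single j x)
      rw [hχsum] at h1
      rw [AddMonoidHom.finsetSum_apply]
      simp only [AddMonoidHom.comp_apply, smulHom_apply, AddMonoidHom.zero_apply]
      rw [← h1]
      refine Finset.sum_congr rfl fun i _ => ?_
      congr 1
      change _ = ∑ k, c i k • (Pi.single j x : Fin n → X) k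
      rw [Finset.sum_eq_single j]
      · simp
      · intro k _ hk; simp [Pi.single_eq_of_ne hk]
      · simp
    apply hχ
    change χ' a = 0
    rw [hχsum]
    calc ∑ i, χi i (a i) = ∑ i, (DD.ev (R := R) (a i)).hom (χi i) := rfl
      _ = ∑ i, (∑ j, c i j • y j).hom (χi i) := by
          refine Finset.sum_congr rfl fun i _ => ?_
          rw [hy i]
      _ = ∑ i, ∑ j, (y j).hom ((χi i).comp (smulHom (c i j))) := by
          refine Finset.sum_congr rfl fun i _ => ?_
          rw [DD.sum_hom]
          rfl
      _ = ∑ j, (y j).hom (∑ i, (χi i).comp (smulHom (c i j))) := by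
          rw [Finset.sum_comm]
          refine Finset.sum_congr rfl fun j _ => ?_
          rw [map_sum]
      _ = 0 := by
          refine Finset.sum_eq_zero fun j _ => ?_
          rw [hcol, map_zero]

theorem DD.algCompact : AlgCompact R (DD X) := by
  intro K E hE
  let Y := K → (X →+ UnitAddCircle) → UnitAddCircle
  let C : (K × (X →+ UnitAddCircle) × (X →+ UnitAddCircle)) ⊕ (E × (X →+ UnitAddCircle)) → Set Y :=
    Sum.elim (fun p => {m | m p.1 (p.2.1 + p.2.2) = m p.1 p.2.1 + m p.1 p.2.2})
      (fun p => {m | ∑ k ∈ p.1.1.1.support, m k (p.2.comp (smulHom (p.1.1.1 k))) =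
        p.1.1.2.hom p.2})
  have hlc : ∀ (m : K → DD X) (ρ : K →₀ R) (χ : X →+ UnitAddCircle),
      (linearCombination R m ρ).hom χ = ∑ k ∈ ρ.support, (m k).hom (χ.comp (smulHom (ρ k))) := by
    intro m ρ χ
    rw [linearCombination_apply, Finsupp.sum, DD.sum_hom]
    rfl
  have hcl : ∀ i, IsClosed (C i) := by
    rintro (p | p)
    · apply isClosed_eq
      · exact continuous_apply_apply _ _
      · exact (continuous_apply_apply _ _).add (continuous_apply_apply _ _)
    · apply isClosed_eq
      · exact continuous_finsetSum _ fun k _ => continuous_apply_apply _ _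
      · exact continuous_const
  have hfin : ∀ s : Finset _, (⋂ i ∈ s, C i).Nonempty := by
    classical
    intro s
    let F : Finset ((K →₀ R) × DD X) := s.biUnion fun i =>
      Sum.elim (fun _ => ∅) (fun p => {p.1.1}) i
    obtain ⟨m, hm⟩ := hE F (by
      intro p hp
      obtain ⟨i, _, hip⟩ := Finset.mem_biUnion.mp (Finset.mem_coe.mp hp)
      rcases i with i | i
      · simp at hip
      · simp only [Sum.elim_inr, Finset.mem_singleton] at hip
        rw [hip]; exact i.1.2)
    refine ⟨fun k χ => (m k).hom χ, ?_⟩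
    rw [Set.mem_iInter₂]
    rintro (p | p) hp
    · exact map_add (m p.1).hom _ _
    · have h1 := hm p.1.1 (Finset.mem_biUnion.mpr ⟨_, hp, by simp⟩)
      change ∑ k ∈ p.1.1.1.support, (m k).hom (p.2.comp (smulHom (p.1.1.1 k))) = _
      rw [← hlc, h1]
  obtain ⟨m, hm⟩ := CompactSpace.iInter_nonempty hcl hfin
  rw [Set.mem_iInter] at hm
  have hadd : ∀ k χ χ', m k (χ + χ') = m k χ + m k χ' := fun k χ χ' => hm (Sum.inl (k, χ, χ'))
  let F : K → DD X := fun k => (AddMonoidHom.mk' (m k) (hadd k) : (X →+ UnitAddCircle) →+ UnitAddCircle)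
  refine ⟨F, fun p hp => ?_⟩
  apply DD.ext
  intro χ
  rw [hlc]
  exact hm (Sum.inr (⟨p, hp⟩, χ))

end

/-- Every module embeds purely into an algebraically compact one. -/
theorem exists_pure_algCompact (R : Type u) [Ring R] (X : Type u) [AddCommGroup X] [Module R X] :
    ∃ (M : Type u) (_ : AddCommGroup M) (_ : Module R M) (ι : X →ₗ[R] M),
      AlgCompact R M ∧ PureEmbedding ι :=
  ⟨DD X, inferInstance, inferInstance, DD.ev, DD.algCompact, DD.ev_pure⟩

end Pool.Agent.SerialKdim
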