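import Mathlib

/-!
Order-theoretic part: dense chains, the relation of containing a copy of the rationals,
and curves of pairs without flat corners.
-/

namespace Pool.Agent.SerialKdim

/-- A transitive, irreflexive, dense relation which holds somewhere contains a copy of the
strict order on the rationals. -/
theorem exists_rat_curve {P : Type*} (r : P → P → Prop)
    (htrans : ∀ a b c, r a b → r b c → r a c) (hirr : ∀ a, ¬ r a a)
    (hdense : ∀ a b, r a b → ∃ c, r a c ∧ r c b) (a b : P) (hab : r a b) :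
    ∃ g : ℚ → P, ∀ s t, s < t → r (g s) (g t) := by
  classical
  have hne : a ≠ b := fun h => hirr b (h ▸ hab)
  have hchain : IsChain r ({a, b} : Set P) := by
    intro x hx y hy hxy
    simp only [Set.mem_insert_iff, Set.mem_singleton_iff] at hx hy
    rcases hx with rfl | rfl <;> rcases hy with rfl | rfl
    · exact absurd rfl hxy
    · exact Or.inl hab
    · exact Or.inr hab
    · exact absurd rfl hxy
  obtain ⟨C, hC, hsub⟩ := hchain.exists_maxChain
  have hCch : IsChain r C := hC.1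
  let lo : C → C → Prop := fun x y => r x.1 y.1
  have : IsStrictTotalOrder C lo :=
    { trichotomous := by
        intro x y hxy hyx
        by_contra hne'
        have hne'' : x.1 ≠ y.1 := fun h => hne' (Subtype.ext h)
        rcases hCch x.2 y.2 hne'' with h | h
        · exact hxy h
        · exact hyx h
      irrefl := fun x => hirr x.1
      trans := fun x y z => htrans x.1 y.1 z.1 }
  let _ : LinearOrder C := linearOrderOfSTO lo
  have hlt : ∀ x y : C, x < y ↔ r x.1 y.1 := fun x y => Iff.rfl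
  have : Nontrivial C := ⟨⟨⟨a, hsub (by simp)⟩, ⟨b, hsub (by simp)⟩, fun h => hne (congrArg Subtype.val h)⟩⟩
  have : DenselyOrdered C := by
    refine ⟨fun x y hxy => ?_⟩
    by_contra hno
    push Not at hno
    rw [hlt] at hxy
    obtain ⟨c, hxc, hcy⟩ := hdense x.1 y.1 hxy
    have hins : IsChain r (insert c C) := by
      refine hCch.insert ?_
      intro w hw hcw
      have key : r w x.1 ∨ w = x.1 ∨ w = y.1 ∨ r y.1 w := by
        by_cases h1 : w = x.1
        · exact Or.inr (Or.inl h1)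
        by_cases h2 : w = y.1
        · exact Or.inr (Or.inr (Or.inl h2))
        rcases hCch hw x.2 h1 with h | h
        · exact Or.inl h
        rcases hCch hw y.2 h2 with h' | h'
        · exfalso
          have h3 := hno ⟨w, hw⟩ (by rw [hlt]; exact h)
          have h4 : ¬ (⟨w, hw⟩ : C) < y := not_lt.mpr h3
          exact h4 (by rw [hlt]; exact h')
        · exact Or.inr (Or.inr (Or.inr h'))
      rcases key with h | h | h | h
      · exact Or.inr (htrans _ _ _ h hxc)
      · subst h; exact Or.inr hxc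
      · subst h; exact Or.inl hcy
      · exact Or.inl (htrans _ _ _ hcy h)
    have hCeq : C = insert c C := hC.2 hins (Set.subset_insert _ _)
    have hcC : c ∈ C := by rw [hCeq]; exact Set.mem_insert _ _
    have h3 := hno ⟨c, hcC⟩ (by rw [hlt]; exact hxc)
    have h4 : ¬ (⟨c, hcC⟩ : C) < y := not_lt.mpr h3
    exact h4 (by rw [hlt]; exact hcy)
  obtain ⟨f⟩ := Order.embedding_from_countable_to_dense ℚ C
  refine ⟨fun q => (f q).1, fun s t hst => ?_⟩
  have : f s < f t := f.lt_iff_lt.mpr hst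
  exact (hlt _ _).mp this

/-- The rationals embed strictly monotonically in any open rational interval. -/
theorem exists_strictMono_Ioo (a b : ℚ) (hab : a < b) :
    ∃ φ : ℚ → ℚ, StrictMono φ ∧ ∀ s, a < φ s ∧ φ s < b := by
  obtain ⟨g, hg⟩ := exists_rat_curve (P := Set.Ioo a b) (fun x y => x < y)
    (fun x y z => lt_trans) (fun x => lt_irrefl x)
    (fun x y h => exists_between h)
    ⟨(2 * a + b) / 3, by constructor <;> linarith⟩ ⟨(a + 2 * b) / 3, by constructor <;> linarith⟩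
    (by
      change (2 * a + b) / 3 < (a + 2 * b) / 3
      linarith)
  exact ⟨fun q => (g q).1, fun s t h => hg s t h, fun s => (g s).2⟩

section Rich

variable {L : Type*} [LinearOrder L]

/-- The interval from `a` to `b` contains a copy of the rationals. -/
def Rich (a b : L) : Prop := ∃ f : ℚ → L, StrictMono f ∧ ∀ t, a ≤ f t ∧ f t ≤ b

theorem Rich.lt {a b : L} (h : Rich a b) : a < b := by
  obtain ⟨f, hf, hab⟩ := h
  exact lt_of_le_of_lt (hab 0).1 (lt_of_lt_of_le (hf zero_lt_one) (hab 1).2)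

theorem Rich.mono {a b a' b' : L} (h : Rich a b) (ha : a' ≤ a) (hb : b ≤ b') : Rich a' b' := by
  obtain ⟨f, hf, hab⟩ := h
  exact ⟨f, hf, fun t => ⟨ha.trans (hab t).1, (hab t).2.trans hb⟩⟩

theorem Rich.split {a b : L} (h : Rich a b) : ∃ c, Rich a c ∧ Rich c b := by
  obtain ⟨f, hf, hab⟩ := h
  obtain ⟨φ, hφ, hφ'⟩ := exists_strictMono_Ioo (-1) 0 (by norm_num)
  obtain ⟨ψ, hψ, hψ'⟩ := exists_strictMono_Ioo 0 1 (by norm_num)
  exact ⟨f 0, ⟨f ∘ φ, hf.comp hφ, fun t => ⟨(hab _).1, (hf (hφ' t).2).le⟩⟩,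
    ⟨f ∘ ψ, hf.comp hψ, fun t => ⟨(hf (hψ' t).1).le, (hab _).2⟩⟩⟩

theorem Rich.cotrans {a b : L} (h : Rich a b) (c : L) : Rich a c ∨ Rich c b := by
  obtain ⟨f, hf, hab⟩ := h
  by_cases hc : ∃ t, f t ≤ c
  · obtain ⟨t, ht⟩ := hc
    obtain ⟨φ, hφ, hφ'⟩ := exists_strictMono_Ioo (t - 1) t (by linarith)
    exact Or.inl ⟨f ∘ φ, hf.comp hφ, fun s => ⟨(hab _).1, (hf (hφ' s).2).le.trans ht⟩⟩
  · push Not at hc
    exact Or.inr ⟨f, hf, fun t => ⟨(hc t).le, (hab t).2⟩⟩

theorem Rich.trans {a b c : L} (h : Rich a b) (h' : Rich b c) : Rich a c :=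
  h.mono le_rfl h'.lt.le

theorem not_rich_self (a : L) : ¬ Rich a a := fun h => lt_irrefl _ h.lt

end Rich

section Curve

variable {A B L : Type*} [LinearOrder A] [LinearOrder B] [LinearOrder L]

/-- Monotone in both variables with the intermediate value property in each variable. -/
structure IVT (l : A → B → L) : Prop where
  monoA : ∀ b a a', a ≤ a' → l a b ≤ l a' b
  monoB : ∀ a b b', b ≤ b' → l a b ≤ l a b'
  ivtA : ∀ b a a' m, a ≤ a' → l a b ≤ m → m ≤ l a' b → ∃ c, a ≤ c ∧ c ≤ a' ∧ l c b = m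
  ivtB : ∀ a b b' m, b ≤ b' → l a b ≤ m → m ≤ l a b' → ∃ c, b ≤ c ∧ c ≤ b' ∧ l a c = m

theorem IVT.richA {l : A → B → L} (h : IVT l) {a a' : A} {b : B} (haa : a ≤ a')
    (hr : Rich (l a b) (l a' b)) : Rich a a' := by
  obtain ⟨f, hf, hab⟩ := hr
  choose g hg1 hg2 hg3 using fun t => h.ivtA b a a' (f t) haa (hab t).1 (hab t).2
  refine ⟨g, fun s t hst => ?_, fun t => ⟨hg1 t, hg2 t⟩⟩
  by_contra hle
  push Not at hle
  have := h.monoA b _ _ hle
  rw [hg3, hg3] at this
  exact absurd (hf hst) (not_lt.mpr this)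

theorem IVT.richB {l : A → B → L} (h : IVT l) {a : A} {b b' : B} (hbb : b ≤ b')
    (hr : Rich (l a b) (l a b')) : Rich b b' := by
  obtain ⟨f, hf, hab⟩ := hr
  choose g hg1 hg2 hg3 using fun t => h.ivtB a b b' (f t) hbb (hab t).1 (hab t).2
  refine ⟨g, fun s t hst => ?_, fun t => ⟨hg1 t, hg2 t⟩⟩
  by_contra hle
  push Not at hle
  have := h.monoB a _ _ hle
  rw [hg3, hg3] at this
  exact absurd (hf hst) (not_lt.mpr this)

theorem IVT.box {l : A → B → L} (h : IVT l) {a a' : A} {b b' : B} (haa : Rich a a')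
    (hbb : Rich b b') (hl : Rich (l a b) (l a' b')) :
    ∃ x y, Rich a x ∧ Rich x a' ∧ Rich b y ∧ Rich y b' ∧ Rich (l a b) (l x y) ∧
      Rich (l x y) (l a' b') := by
  by_contra hno
  push Not at hno
  obtain ⟨m₁, h01, h13⟩ := hl.split
  obtain ⟨m₂, h12, h23⟩ := h13.split
  -- interior points are low or high
  have hlow_or_high : ∀ x y, Rich a x → Rich x a' → Rich b y → Rich y b' →
      (Rich (l x y) m₁ ∨ Rich m₂ (l x y)) := by
    intro x y h1 h2 h3 h4
    by_contra hc
    push Not at hc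
    have h5 : Rich (l a b) (l x y) := by
      rcases h01.cotrans (l x y) with h | h
      · exact h
      · exact absurd h hc.1
    have h6 : Rich (l x y) (l a' b') := by
      rcases h23.cotrans (l x y) with h | h
      · exact absurd h hc.2
      · exact h
    exact hno x y h1 h2 h3 h4 h5 h6
  -- rows are constant
  have hrow : ∀ x x' y, Rich a x → Rich x a' → Rich a x' → Rich x' a' → Rich b y → Rich y b' →
      Rich (l x y) m₁ → Rich m₂ (l x' y) → False := by
    intro x x' y h1 h2 h1' h2' h3 h4 h5 h6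
    have hxx : x ≤ x' := by
      by_contra hlt
      push Not at hlt
      have := h.monoA y _ _ hlt.le
      have h7 := h5.lt
      have h8 := h6.lt
      have h9 := h12.lt
      exact absurd (lt_trans h7 (lt_trans h9 h8)) (not_lt.mpr this)
    have hlm : m₁ ≤ l x' y := (h12.lt.trans h6.lt).le
    obtain ⟨c, hc1, hc2, hc3⟩ := h.ivtA y x x' m₁ hxx h5.lt.le hlm
    have hac : Rich a c := h1.mono le_rfl hc1
    have hca : Rich c a' := h2'.mono hc2 le_rfl
    refine hno c y hac hca h3 h4 ?_ ?_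
    · rw [hc3]; exact h01
    · rw [hc3]; exact h13
  have hcol : ∀ x y y', Rich a x → Rich x a' → Rich b y → Rich y b' → Rich b y' → Rich y' b' →
      Rich (l x y) m₁ → Rich m₂ (l x y') → False := by
    intro x y y' h1 h2 h3 h4 h3' h4' h5 h6
    have hyy : y ≤ y' := by
      by_contra hlt
      push Not at hlt
      have := h.monoB x _ _ hlt.le
      have h7 := h5.lt
      have h8 := h6.lt
      have h9 := h12.lt
      exact absurd (lt_trans h7 (lt_trans h9 h8)) (not_lt.mpr this)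
    have hlm : m₁ ≤ l x y' := (h12.lt.trans h6.lt).le
    obtain ⟨c, hc1, hc2, hc3⟩ := h.ivtB x y y' m₁ hyy h5.lt.le hlm
    have hbc : Rich b c := h3.mono le_rfl hc1
    have hcb : Rich c b' := h4'.mono hc2 le_rfl
    refine hno x c h1 h2 hbc hcb ?_ ?_
    · rw [hc3]; exact h01
    · rw [hc3]; exact h13
  obtain ⟨x₀, hax₀, hx₀a⟩ := haa.split
  obtain ⟨y₀, hby₀, hy₀b⟩ := hbb.split
  rcases hlow_or_high x₀ y₀ hax₀ hx₀a hby₀ hy₀b with hlow | hhigh
  · -- all low
    have hall : ∀ x y, Rich a x → Rich x a' → Rich b y → Rich y b' → Rich (l x y) m₁ := by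
      intro x y h1 h2 h3 h4
      have h5 : Rich (l x y₀) m₁ := by
        rcases hlow_or_high x y₀ h1 h2 hby₀ hy₀b with h' | h'
        · exact h'
        · exact (hrow x₀ x y₀ hax₀ hx₀a h1 h2 hby₀ hy₀b hlow h').elim
      rcases hlow_or_high x y h1 h2 h3 h4 with h' | h'
      · exact h'
      · exact (hcol x y₀ y h1 h2 hby₀ hy₀b h3 h4 h5 h').elim
    have hright : ∀ y, Rich b y → Rich y b' → Rich (l a' y) m₂ := by
      intro y h3 h4
      rcases h12.cotrans (l a' y) with h' | h'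
      · exfalso
        have h5 := hall x₀ y hax₀ hx₀a h3 h4
        obtain ⟨c, hc1, hc2, hc3⟩ := h.ivtA y x₀ a' m₁ hx₀a.lt.le h5.lt.le h'.lt.le
        have hx₀c : Rich x₀ c := h.richA hc1 (by rw [hc3]; exact h5)
        have hca : Rich c a' := h.richA hc2 (by rw [hc3]; exact h')
        have h6 := hall c y (hax₀.trans hx₀c) hca h3 h4
        rw [hc3] at h6
        exact not_rich_self _ h6
      · exact h'
    obtain ⟨n, h2n, hn3⟩ := h23.split
    have h5 := hright y₀ hby₀ hy₀b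
    obtain ⟨c, hc1, hc2, hc3⟩ := h.ivtB a' y₀ b' n hy₀b.lt.le
      (h5.trans h2n).lt.le hn3.lt.le
    have hy₀c : Rich y₀ c := h.richB hc1 (by rw [hc3]; exact h5.trans h2n)
    have hcb : Rich c b' := h.richB hc2 (by rw [hc3]; exact hn3)
    have h6 := hright c (hby₀.trans hy₀c) hcb
    rw [hc3] at h6
    exact lt_irrefl _ (h6.lt.trans h2n.lt)
  · -- all high
    have hall : ∀ x y, Rich a x → Rich x a' → Rich b y → Rich y b' → Rich m₂ (l x y) := by
      intro x y h1 h2 h3 h4
      have h5 : Rich m₂ (l x y₀) := by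
        rcases hlow_or_high x y₀ h1 h2 hby₀ hy₀b with h' | h'
        · exact (hrow x x₀ y₀ h1 h2 hax₀ hx₀a hby₀ hy₀b h' hhigh).elim
        · exact h'
      rcases hlow_or_high x y h1 h2 h3 h4 with h' | h'
      · exact (hcol x y y₀ h1 h2 h3 h4 hby₀ hy₀b h' h5).elim
      · exact h'
    have hleft : ∀ y, Rich b y → Rich y b' → Rich m₁ (l a y) := by
      intro y h3 h4
      rcases h12.cotrans (l a y) with h' | h'
      · exact h'
      · exfalso
        have h5 := hall x₀ y hax₀ hx₀a h3 h4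
        obtain ⟨n, hn1, hn2⟩ := h'.split
        obtain ⟨c, hc1, hc2, hc3⟩ := h.ivtA y a x₀ n hax₀.lt.le hn1.lt.le (hn2.lt.trans h5.lt).le
        have hac : Rich a c := h.richA hc1 (by rw [hc3]; exact hn1)
        have hcx : Rich c x₀ := h.richA hc2 (by rw [hc3]; exact hn2.trans h5)
        have h6 := hall c y hac (hcx.trans hx₀a) h3 h4
        rw [hc3] at h6
        exact lt_irrefl _ (h6.lt.trans hn2.lt)
    obtain ⟨n, h0n, hn1⟩ := h01.split
    have h5 := hleft y₀ hby₀ hy₀b
    obtain ⟨c, hc1, hc2, hc3⟩ := h.ivtB a b y₀ n hby₀.lt.le h0n.lt.le (hn1.lt.trans h5.lt).le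
    have hbc : Rich b c := h.richB hc1 (by rw [hc3]; exact h0n)
    have hcy : Rich c y₀ := h.richB hc2 (by rw [hc3]; exact hn1.trans h5)
    have h6 := hleft c hbc (hcy.trans hy₀b)
    rw [hc3] at h6
    exact lt_irrefl _ (h6.lt.trans hn1.lt)

/-- Existence of a curve with strictly increasing coordinates and levels. -/
theorem IVT.exists_curve {l : A → B → L} (h : IVT l) {a a' : A} {b b' : B} (haa : Rich a a')
    (hbb : Rich b b') (hl : Rich (l a b) (l a' b')) :
    ∃ (f : ℚ → A) (g : ℚ → B), StrictMono f ∧ StrictMono g ∧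
      StrictMono (fun t => l (f t) (g t)) := by
  obtain ⟨c, hc⟩ := exists_rat_curve (P := A × B)
    (fun p q => Rich p.1 q.1 ∧ Rich p.2 q.2 ∧ Rich (l p.1 p.2) (l q.1 q.2))
    (fun p q r h1 h2 => ⟨h1.1.trans h2.1, h1.2.1.trans h2.2.1, h1.2.2.trans h2.2.2⟩)
    (fun p hp => not_rich_self _ hp.1)
    (fun p q hpq => by
      obtain ⟨x, y, h1, h2, h3, h4, h5, h6⟩ := h.box hpq.1 hpq.2.1 hpq.2.2
      exact ⟨(x, y), ⟨h1, h3, h5⟩, ⟨h2, h4, h6⟩⟩)
    (a, b) (a', b') ⟨haa, hbb, hl⟩
  exact ⟨fun t => (c t).1, fun t => (c t).2, fun s t hst => (hc s t hst).1.lt,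
    fun s t hst => (hc s t hst).2.1.lt, fun s t hst => (hc s t hst).2.2.lt⟩

/-- Existence of a curve without flat corners. -/
theorem IVT.exists_nonflat_curve {l : A → B → L} (h : IVT l) {a a' : A} {b b' : B}
    (haa : Rich a a') (hbb : Rich b b') (hl : Rich (l a b) (l a' b')) :
    ∃ (f : ℚ → A) (g : ℚ → B), StrictMono f ∧ StrictMono g ∧
      ∀ t u, t < u → (l (f t) (g u) < l (f u) (g u) ∨ l (f u) (g t) < l (f u) (g u)) := by
  classical
  obtain ⟨f, g, hf, hg, hlam⟩ := h.exists_curve haa hbb hl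
  -- flatness
  let Flat : ℚ → ℚ → Prop := fun t u =>
    l (f t) (g u) = l (f u) (g u) ∧ l (f u) (g t) = l (f u) (g u)
  have hflat_mono : ∀ t t' u, t ≤ t' → t' ≤ u → Flat t u → Flat t' u := by
    intro t t' u h1 h2 hfl
    constructor
    · apply le_antisymm
      · exact h.monoA _ _ _ (hf.monotone h2)
      · rw [← hfl.1]; exact h.monoA _ _ _ (hf.monotone h1)
    · apply le_antisymm
      · exact h.monoB _ _ _ (hg.monotone h2)
      · rw [← hfl.2]; exact h.monoB _ _ _ (hg.monotone h1)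
  have hnotflat : ∀ t u, t < u → ¬ Flat t u →
      (l (f t) (g u) < l (f u) (g u) ∨ l (f u) (g t) < l (f u) (g u)) := by
    intro t u htu hnf
    by_contra hc
    push Not at hc
    apply hnf
    exact ⟨le_antisymm (h.monoA _ _ _ (hf.monotone htu.le)) hc.1,
      le_antisymm (h.monoB _ _ _ (hg.monotone htu.le)) hc.2⟩
  by_cases hcase : ∃ (q : ℚ) (φ : ℚ → ℚ), StrictMono φ ∧ ∀ s, q < φ s ∧ Flat q (φ s)
  · obtain ⟨q, φ, hφ, hφq⟩ := hcase
    obtain ⟨lo, hlo, hlo'⟩ := exists_strictMono_Ioo (-1) 0 (by norm_num)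
    obtain ⟨hi, hhi, hhi'⟩ := exists_strictMono_Ioo 0 1 (by norm_num)
    have hlohi : ∀ s t, φ (lo s) < φ (hi t) := fun s t =>
      hφ ((hlo' s).2.trans (hhi' t).1)
    have hval : ∀ s t, l (f (φ (hi t))) (g (φ (lo s))) =
        l (f (φ (hi t))) (g (φ (hi t))) := by
      intro s t
      exact (hflat_mono q (φ (lo s)) (φ (hi t)) (hφq _).1.le (hlohi s t).le (hφq _).2).2
    refine ⟨fun t => f (φ (hi t)), fun t => g (φ (lo t)), hf.comp (hφ.comp hhi),
      hg.comp (hφ.comp hlo), fun t u htu => Or.inl ?_⟩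
    rw [hval, hval]
    exact hlam (hφ (hhi htu))
  · push Not at hcase
    obtain ⟨φ₀, hφ₀, hφ₀'⟩ := exists_strictMono_Ioo 0 1 (by norm_num)
    obtain ⟨s₀, hs₀⟩ := hcase 0 φ₀ hφ₀
    obtain ⟨c, hc⟩ := exists_rat_curve (P := ℚ)
      (fun t u => t < u ∧ ∃ q, t < q ∧ q < u ∧ ¬ Flat q u)
      (fun t u w h1 h2 => ⟨h1.1.trans h2.1, by
        obtain ⟨q, hq1, hq2, hq3⟩ := h2.2
        exact ⟨q, h1.1.trans hq1, hq2, hq3⟩⟩)
      (fun t ht => lt_irrefl _ ht.1)
      (fun t u htu => by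
        obtain ⟨hlt, q, hq1, hq2, hq3⟩ := htu
        obtain ⟨q'', hq''1, hq''2⟩ := exists_between hq1
        obtain ⟨φ, hφ, hφ'⟩ := exists_strictMono_Ioo q'' q hq''2
        obtain ⟨s, hs⟩ := hcase q'' φ hφ
        refine ⟨φ s, ⟨hq''1.trans (hφ' s).1, q'', hq''1, (hφ' s).1, hs (hφ' s).1⟩,
          ⟨(hφ' s).2.trans hq2, q, (hφ' s).2, hq2, hq3⟩⟩)
      (-1) (φ₀ s₀) ⟨lt_trans (by norm_num) (hφ₀' s₀).1, 0, by norm_num, (hφ₀' s₀).1,
        hs₀ (hφ₀' s₀).1⟩
    refine ⟨fun t => f (c t), fun t => g (c t), hf.comp (fun s t hst => (hc s t hst).1),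
      hg.comp (fun s t hst => (hc s t hst).1), fun t u htu => ?_⟩
    obtain ⟨hlt, q, hq1, hq2, hq3⟩ := hc t u htu
    exact hnotflat _ _ hlt (fun hfl => hq3 (hflat_mono _ _ _ hq1.le hq2.le hfl))

end Curve

end Pool.Agent.SerialKdim
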