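import Pool.Agent.SerialKdim.Defs
import Pool.Agent.SerialKdim.Order

/-!
A bounded lattice without Krull dimension contains a copy of the rationals.
-/

namespace Pool.Agent.SerialKdim

universe u v

section

variable {L : Type v} [PartialOrder L]

theorem KdimLE.mono_interval {α : Ordinal.{v}} {a b a' b' : L} (h : KdimLE α a b) (ha : a ≤ a')
    (hb : b' ≤ b) : KdimLE α a' b' := by
  rw [KdimLE] at h ⊢
  exact fun f hf hab => h f hf fun i => ⟨ha.trans (hab i).1, (hab i).2.trans hb⟩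

theorem kdimLE_self (a : L) : KdimLE (0 : Ordinal.{v}) a a := by
  rw [KdimLE]
  exact fun f _ hab => ⟨0, fun i _ => Or.inl
    ((le_antisymm (hab _).2 (hab _).1).trans (le_antisymm (hab _).2 (hab _).1).symm)⟩

theorem exists_ordinal_bound (L : Type v) [PartialOrder L] :
    ∃ α : Ordinal.{v}, ∀ x y : L, (∃ β : Ordinal.{v}, KdimLE β x y) → ∃ β < α, KdimLE β x y := by
  classical
  let F : L × L → Ordinal.{v} := fun p =>
    if h : ∃ β : Ordinal.{v}, KdimLE β p.1 p.2 then h.choose else 0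
  have hb : BddAbove (Set.range F) := Ordinal.bddAbove_of_small
  obtain ⟨γ, hγ⟩ := hb
  refine ⟨Order.succ γ, fun x y h => ⟨h.choose, ?_, h.choose_spec⟩⟩
  have h1 : F (x, y) ≤ γ := hγ ⟨(x, y), rfl⟩
  have h2 : F (x, y) = h.choose := by simp only [F]; rw [dif_pos h]
  rw [h2] at h1
  exact Order.lt_succ_of_le h1

theorem bad_split {a b : L} (hbad : ∀ α : Ordinal.{v}, ¬ KdimLE α a b) :
    ∃ c, (a ≤ c ∧ ∀ α : Ordinal.{v}, ¬ KdimLE α a c) ∧
      (c ≤ b ∧ ∀ α : Ordinal.{v}, ¬ KdimLE α c b) := by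
  obtain ⟨α, hα⟩ := exists_ordinal_bound L
  have h := hbad α
  rw [KdimLE] at h
  push Not at h
  obtain ⟨f, hf, hab, hn⟩ := h
  have key : ∀ n, ∃ i, n ≤ i ∧ ∀ β : Ordinal.{v}, ¬ KdimLE β (f (i + 1)) (f i) := by
    intro n
    obtain ⟨i, hi, _, hi3⟩ := hn n
    refine ⟨i, hi, fun β hβ => ?_⟩
    obtain ⟨γ, hγ, hγ'⟩ := hα _ _ ⟨β, hβ⟩
    exact hi3 γ hγ hγ'
  obtain ⟨i, _, hi⟩ := key 0
  obtain ⟨j, hj, hj'⟩ := key (i + 1)
  refine ⟨f (i + 1), ⟨(hab _).1, fun β hβ => hj' β ?_⟩, ⟨(hab _).2, fun β hβ => hi β ?_⟩⟩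
  · exact hβ.mono_interval (hab _).1 (hf hj)
  · exact hβ.mono_interval le_rfl (hab _).2

end

theorem exists_rat_chain_of_not_hasKrullDim (L : Type v) [Lattice L] [BoundedOrder L]
    (h : ¬ HasKrullDim L) : ∃ g : ℚ → L, StrictMono g := by
  have hbad : ∀ α : Ordinal.{v}, ¬ KdimLE α (⊥ : L) ⊤ := by
    intro α hα
    exact h ⟨α, hα⟩
  obtain ⟨g, hg⟩ := exists_rat_curve (P := L)
    (fun a b => a ≤ b ∧ ∀ α : Ordinal.{v}, ¬ KdimLE α a b)
    (fun a b c h1 h2 => ⟨h1.1.trans h2.1, fun α hα => h1.2 α (hα.mono_interval le_rfl h2.1)⟩)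
    (fun a ha => ha.2 0 (kdimLE_self a))
    (fun a b hab => by
      obtain ⟨c, hc1, hc2⟩ := bad_split hab.2
      exact ⟨c, hc1, hc2⟩)
    ⊥ ⊤ ⟨bot_le, hbad⟩
  refine ⟨g, fun s t hst => lt_of_le_of_ne (hg s t hst).1 fun heq => ?_⟩
  have h1 := (hg s t hst).2 0
  rw [heq] at h1
  exact h1 (kdimLE_self _)

end Pool.Agent.SerialKdim
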