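import Pool.Agent.SerialKdim.PP
import Pool.Agent.SerialKdim.Curve

/-!
A module with an element that satisfies the basic formulas of the curve and none of the
forbidden ones.
-/

namespace Pool.Agent.SerialKdim

universe u v

section

variable {R : Type u} [Ring R]

/-- The properties of the curve of pairs. -/
structure IsCurve (p q : R) (r s : ℚ → R) : Prop where
  hr : ∀ t, q * r t = r t ∧ r t * q = r t
  hs : ∀ t, p * s t = s t ∧ s t * q = s t
  r_le : ∀ t u, t < u → ∃ c, r t = r u * c
  r_not : ∀ t u, t < u → ¬ ∃ c, r u = r t * c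
  s_le : ∀ t u, t < u → ∃ c, s t = c * s u
  s_not : ∀ t u, t < u → ¬ ∃ c, s u = c * s t
  nonflat : ∀ t u, t < u → (¬ ∃ a b, s u * r u = a * (s u * r t) * b) ∨
    (¬ ∃ a b, s u * r u = a * (s t * r u) * b)

theorem IsCurve.no_solution_aux {p q : R} {r s : ℚ → R} (h : IsCurve p q r s) (hp : p * p = p)
    (hq : q * q = q)
    (hLp : ∀ a b : R, a * p = a → b * p = b → (∃ c, a = c * b) ∨ (∃ c, b = c * a))
    (hRq : ∀ a b : R, q * a = a → q * b = b → (∃ c, a = b * c) ∨ (∃ c, b = a * c))
    {τ u : ℚ} (hτ : τ < u) (w v : R) (hP : s u * r u = s u * (r τ * w) + v * (s τ * r u)) :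
    False := by
  obtain ⟨c, hc⟩ := h.s_le τ u hτ
  obtain ⟨d, hd⟩ := h.r_le τ u hτ
  obtain ⟨hpr, hrq⟩ := h.hr u
  obtain ⟨hps, hsq⟩ := h.hs u
  rcases h.nonflat τ u hτ with h1 | h1
  · let β : R := p * (v * c) * p
    have hβp : β * p = β := by simp only [β, mul_assoc, hp]
    rcases hLp β (p - β) hβp (by rw [sub_mul, hp, hβp]) with ⟨d', hd'⟩ | ⟨d', hd'⟩
    · have hpe : p = (1 + d') * (p - β) := by
        rw [add_mul, one_mul, ← hd']; abel
      have hβP : β * (s u * r u) = p * v * (s τ * r u) := by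
        have : β * (s u * r u) = p * v * (c * (p * s u)) * r u := by simp only [β, mul_assoc]
        rw [this, hps, ← hc]; simp only [mul_assoc]
      have hpP : p * (s u * r u) = s u * r u := by rw [← mul_assoc, hps]
      have hpv : p * v * (s τ * r u) = s u * r u - s u * (r τ * w) := by
        have h2 : p * (v * (s τ * r u)) = p * (s u * r u) - p * (s u * (r τ * w)) := by
          rw [hP]; noncomm_ring
        rw [mul_assoc, h2, hpP, ← mul_assoc, hps]
      apply h1
      refine ⟨1 + d', w, ?_⟩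
      calc s u * r u = p * (s u * r u) := hpP.symm
        _ = (1 + d') * ((p - β) * (s u * r u)) := by rw [← mul_assoc (1 + d'), ← hpe]
        _ = (1 + d') * (s u * r u - p * v * (s τ * r u)) := by rw [sub_mul, hpP, hβP]
        _ = (1 + d') * (s u * (r τ * w)) := by rw [hpv]; congr 1; abel
        _ = (1 + d') * (s u * r τ) * w := by simp only [mul_assoc]
    · have hpe : p = (d' + 1) * β := by
        rw [add_mul, one_mul, ← hd']; abel
      apply h.s_not τ u hτ
      refine ⟨(d' + 1) * p * v, ?_⟩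
      calc s u = p * s u := hps.symm
        _ = (d' + 1) * β * s u := by rw [← hpe]
        _ = (d' + 1) * p * v * (c * (p * s u)) := by simp only [β, mul_assoc]
        _ = (d' + 1) * p * v * s τ := by rw [hps, ← hc]
  · let α : R := q * (d * w) * q
    have hqα : q * α = α := by simp only [α, ← mul_assoc, hq]
    have hPα : s u * r u * α = s u * r u - v * (s τ * r u) := by
      have e1 : s u * r u * α = s u * ((r u * q) * d * w) * q := by simp only [α, mul_assoc]
      have e2 : s u * r u * q = s u * (r τ * w) * q + v * (s τ * (r u * q)) := by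
        rw [hP]; noncomm_ring
      rw [e1, hrq, ← hd]
      rw [hrq, mul_assoc (s u) (r u) q, hrq] at e2
      rw [e2]; abel
    rcases hRq α (q - α) hqα (by rw [mul_sub, hq, hqα]) with ⟨c', hc'⟩ | ⟨c', hc'⟩
    · have hqe : q = (q - α) * (1 + c') := by
        rw [mul_add, mul_one, ← hc']; abel
      apply h1
      refine ⟨v, 1 + c', ?_⟩
      calc s u * r u = s u * r u * q := by rw [mul_assoc, hrq]
        _ = (s u * r u * q - s u * r u * α) * (1 + c') := by
            rw [← mul_sub, mul_assoc (s u * r u) (q - α), ← hqe]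
        _ = v * (s τ * r u) * (1 + c') := by
            rw [hPα, mul_assoc (s u) (r u) q, hrq]; congr 1; abel
    · have hqe : q = α * (c' + 1) := by
        rw [mul_add, mul_one, ← hc']; abel
      apply h.r_not τ u hτ
      refine ⟨w * q * (c' + 1), ?_⟩
      calc r u = r u * q := hrq.symm
        _ = r u * (α * (c' + 1)) := by rw [← hqe]
        _ = (r u * q) * d * w * q * (c' + 1) := by simp only [α, mul_assoc]
        _ = r τ * (w * q * (c' + 1)) := by rw [hrq, ← hd]; simp only [mul_assoc]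

theorem IsCurve.r_le' {p q : R} {r s : ℚ → R} (h : IsCurve p q r s) {t u : ℚ} (htu : t ≤ u) :
    ∃ c, r t = r u * c := by
  rcases htu.lt_or_eq with h1 | rfl
  · exact h.r_le t u h1
  · exact ⟨1, (mul_one _).symm⟩

theorem IsCurve.s_le' {p q : R} {r s : ℚ → R} (h : IsCurve p q r s) {t u : ℚ} (htu : t ≤ u) :
    ∃ c, s t = c * s u := by
  rcases htu.lt_or_eq with h1 | rfl
  · exact h.s_le t u h1
  · exact ⟨1, (one_mul _).symm⟩

theorem IsCurve.no_solution {p q : R} {r s : ℚ → R} (h : IsCurve p q r s) (hp : p * p = p)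
    (hq : q * q = q)
    (hLp : ∀ a b : R, a * p = a → b * p = b → (∃ c, a = c * b) ∨ (∃ c, b = c * a))
    (hRq : ∀ a b : R, q * a = a → q * b = b → (∃ c, a = b * c) ∨ (∃ c, b = a * c))
    {t t' u : ℚ} (ht : t < u) (ht' : t' < u) (w v : R)
    (hP : s u * r u = s u * (r t * w) + v * (s t' * r u)) : False := by
  obtain ⟨c₁, h1⟩ := h.r_le' (le_max_left t t')
  obtain ⟨c₂, h2⟩ := h.s_le' (le_max_right t t')
  refine h.no_solution_aux hp hq hLp hRq (max_lt ht ht') (c₁ * w) (v * c₂) ?_
  rw [hP]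
  conv_lhs => rw [h1, h2]
  simp only [mul_assoc]

/-- The left ideal which is the union of the `R s_t r_u`, `t < u`. -/
def IsCurve.ideal {p q : R} {r s : ℚ → R} (h : IsCurve p q r s) (u : ℚ) : Submodule R R where
  carrier := {x | ∃ t, t < u ∧ ∃ w, x = w * (s t * r u)}
  zero_mem' := ⟨u - 1, by linarith, 0, by rw [zero_mul]⟩
  add_mem' := by
    rintro x y ⟨t, ht, w, rfl⟩ ⟨t', ht', w', rfl⟩
    obtain ⟨c₁, h1⟩ := h.s_le' (le_max_left t t')
    obtain ⟨c₂, h2⟩ := h.s_le' (le_max_right t t')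
    refine ⟨max t t', max_lt ht ht', w * c₁ + w' * c₂, ?_⟩
    conv_lhs => rw [h1, h2]
    rw [add_mul]
    simp only [mul_assoc]
  smul_mem' := by
    rintro a x ⟨t, ht, w, rfl⟩
    exact ⟨t, ht, a * w, by rw [smul_eq_mul, mul_assoc]⟩

theorem IsCurve.exists_module {p q : R} {r s : ℚ → R} (h : IsCurve p q r s) (hp : p * p = p)
    (hq : q * q = q)
    (hLp : ∀ a b : R, a * p = a → b * p = b → (∃ c, a = c * b) ∨ (∃ c, b = c * a))
    (hRq : ∀ a b : R, q * a = a → q * b = b → (∃ c, a = b * c) ∨ (∃ c, b = a * c)) :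
    ∃ (X : Type u) (_ : AddCommGroup X) (_ : Module R X) (x : X), q • x = x ∧
      (∀ t, (bas (r t) (s t)).Holds x) ∧ ∀ t u, t < u → ¬ (bas (r t) (s u)).Holds x := by
  classical
  refine ⟨∀ u : ℚ, R ⧸ h.ideal u, inferInstance, inferInstance,
    fun u => (h.ideal u).mkQ (r u), ?_, ?_, ?_⟩
  · funext u
    rw [Pi.smul_apply, ← map_smul, smul_eq_mul, (h.hr u).1]
  · intro t
    rw [bas_holds]
    have key : ∀ u, ∃ c : R, (h.ideal u).mkQ (s t * (r t * c)) = (h.ideal u).mkQ (s t * r u) := by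
      intro u
      rcases le_or_gt u t with hut | hut
      · obtain ⟨c, hc⟩ := h.r_le' hut
        exact ⟨c, by rw [← hc]⟩
      · refine ⟨0, ?_⟩
        rw [mul_zero, mul_zero, map_zero, eq_comm, ← LinearMap.mem_ker, Submodule.ker_mkQ]
        exact ⟨t, hut, 1, (one_mul _).symm⟩
    choose c hc using key
    refine ⟨fun u => (h.ideal u).mkQ (c u), ?_⟩
    funext u
    rw [Pi.smul_apply, Pi.smul_apply, Pi.smul_apply, ← map_smul, ← map_smul, ← map_smul]
    exact hc u
  · intro t u htu hbas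
    rw [bas_holds] at hbas
    obtain ⟨w, hw⟩ := hbas
    have hwu := congrFun hw u
    obtain ⟨w₀, hw₀⟩ := (h.ideal u).mkQ_surjective (w u)
    rw [Pi.smul_apply, Pi.smul_apply, Pi.smul_apply, ← hw₀, ← map_smul, ← map_smul, ← map_smul,
      ← sub_eq_zero, ← map_sub, ← LinearMap.mem_ker, Submodule.ker_mkQ] at hwu
    obtain ⟨t', ht', v, hv⟩ := hwu
    refine h.no_solution hp hq hLp hRq htu ht' w₀ (-v) ?_
    rw [neg_mul, ← hv]
    simp only [smul_eq_mul]
    abel

end

end Pool.Agent.SerialKdim
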