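import Pool.Agent.SerialKdim.Sol
import Pool.Agent.SerialKdim.Dual
import Pool.Agent.SerialKdim.Dist
import Pool.Agent.SerialKdim.Witness
import Pool.Agent.SerialKdim.Corner

/-!
The superdecomposable pure-injective module.
-/

namespace Pool.Agent.SerialKdim

universe u v

open Finsupp

section

variable {R : Type u} [Ring R]

theorem isSol_eval_range {N : Type u} [AddCommGroup N] [Module R N] {ι : Type u} (x : ι) (ρ : R) :
    IsSol R {b : ι → N | ∃ w, b x = ρ • w} := by
  refine ⟨PUnit, {(single (Sum.inl x) 1 - single (Sum.inr PUnit.unit) ρ, 0)}, ?_⟩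
  ext b
  simp only [Set.mem_setOf_eq, Set.mem_singleton_iff, forall_eq, map_sub,
    linearCombination_single, one_smul, Sum.elim_inl, Sum.elim_inr, sub_eq_zero]
  constructor
  · rintro ⟨w, hw⟩
    exact ⟨fun _ => w, hw⟩
  · rintro ⟨w, hw⟩
    exact ⟨w PUnit.unit, hw⟩

theorem isSol_eval_smul {N : Type u} [AddCommGroup N] [Module R N] {ι : Type u} (x : ι) (σ : R)
    (c : N) : IsSol R {b : ι → N | σ • b x = c} := by
  have := isSol_of_eqs (R := R) (N := N) {p : (ι →₀ R) × N | p = (single x σ, c)}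
  convert this using 1
  ext b
  simp

/-- In an indecomposable algebraically compact module basic formulas are decided. -/
theorem indec_decide {A : Type u} [AddCommGroup A] [Module R A] (hA : AlgCompact R A)
    (hind : Indecomposable R A) {y : A} {ρ σ : R}
    (hdist : ∀ φ : PP R, φ.Holds y → ∃ w : A, σ • (ρ • w) = σ • y ∧ φ.Holds (ρ • w))
    (h1 : ¬ ∃ w : A, y = ρ • w) (h2 : σ • y ≠ 0) : False := by
  obtain ⟨f₀, hf₀, hf₀'⟩ := hA.exists_split hdist
  obtain ⟨f, ⟨⟨hf1, hf2⟩, hf3, hf4⟩, hff⟩ := hA.exists_idempotent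
    ({f : A → A | (∀ x y, f (x + y) = f x + f y) ∧ ∀ (r : R) x, f (r • x) = r • f x} ∩
      ({b : A → A | ∃ w, b y = ρ • w} ∩ {b : A → A | σ • b y = σ • y}))
    (isSol_linear.inter ((isSol_eval_range y ρ).inter (isSol_eval_smul y σ (σ • y))))
    ⟨f₀, ⟨f₀.map_add, f₀.map_smul⟩, hf₀, hf₀'⟩
    (by
      rintro a ⟨⟨ha1, ha2⟩, ha3, ha4⟩ b ⟨⟨hb1, hb2⟩, ⟨w, hw⟩, hb4⟩
      refine ⟨⟨fun x y => ?_, fun r x => ?_⟩, ⟨a w, ?_⟩, ?_⟩
      · simp only [Function.comp_apply, hb1, ha1]
      · simp only [Function.comp_apply, hb2, ha2]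
      · rw [Function.comp_apply, hw, ha2]
      · have h5 : σ • a y = σ • y := ha4
        have h6 : σ • b y = σ • y := hb4
        change σ • a (b y) = σ • y
        rw [← ha2, h6, ha2, h5])
  let F : A →ₗ[R] A := { toFun := f, map_add' := hf1, map_smul' := hf2 }
  have hF : IsIdempotentElem F := LinearMap.ext fun x => congrFun hff x
  rcases hind.2 _ _ (LinearMap.IsIdempotentElem.isCompl hF) with h | h
  · have h5 : F y ∈ LinearMap.range F := ⟨y, rfl⟩
    rw [h, Submodule.mem_bot] at h5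
    apply h2
    have h6 : σ • F y = σ • y := hf4
    rw [← h6, h5, smul_zero]
  · have h5 : F y - y ∈ LinearMap.ker F := by
      rw [LinearMap.mem_ker, map_sub, sub_eq_zero]
      exact congrFun hff y
    rw [h, Submodule.mem_bot, sub_eq_zero] at h5
    obtain ⟨w, hw⟩ := hf3
    exact h1 ⟨w, h5.symm.trans hw⟩

theorem bas_zero_holds {e : R} {X : Type v} [AddCommGroup X] [Module R X] {x : X} :
    (bas 0 (1 - e)).Holds x ↔ e • x = x := by
  rw [bas_holds]
  simp only [zero_smul, smul_zero, exists_const, sub_smul, one_smul]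
  rw [eq_comm, sub_eq_zero, eq_comm]

theorem exists_superdecomposable {n : ℕ} {e : Fin n → R} (hsum : ∑ i, e i = 1)
    (hidem : ∀ i, e i * e i = e i)
    (hleft : ∀ i a b, a * e i = a → b * e i = b → (∃ c, a = c * b) ∨ (∃ c, b = c * a))
    (hright : ∀ i a b, e i * a = a → e i * b = b → (∃ c, a = b * c) ∨ (∃ c, b = a * c))
    {j i : Fin n} {r s : ℚ → R} (h : IsCurve (e j) (e i) r s) :
    ∃ (N : Type u) (_ : AddCommGroup N) (_ : Module R N),
      PureInjective R N ∧ Superdecomposable R N := by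
  classical
  obtain ⟨X₀, _, _, x₀, hx₀, hx₀b, hx₀n⟩ := h.exists_module (hidem j) (hidem i) (hleft j) (hright i)
  let base : Set (PP R) := {φ | φ = bas 0 (1 - e i) ∨ ∃ t, φ = bas (r t) (s t)}
  let bad : Set (PP R) := {φ | ∃ t u, t < u ∧ φ = bas (r t) (s u)}
  have hbase₀ : ∀ φ ∈ base, φ.Holds x₀ := by
    rintro φ (rfl | ⟨t, rfl⟩)
    · exact bas_zero_holds.mpr hx₀
    · exact hx₀b t
  obtain ⟨P, hbP, hbadP, hmaxP⟩ := exists_maximal_type base bad (by
    rintro β ⟨t, u, htu, rfl⟩ ⟨F, hF, hFβ⟩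
    exact hx₀n t u htu (hFβ X₀ x₀ fun φ hφ => hbase₀ φ (hF hφ)))
  obtain ⟨X₁, _, _, x₁, hx₁, hx₁'⟩ := exists_realisation P
  obtain ⟨N₁, _, _, ι, hN₁, hι⟩ := exists_pure_algCompact R X₁
  obtain ⟨E, hE1, hE2, hE3⟩ := hN₁.exists_hull (ι x₁)
  let H : Submodule R N₁ := LinearMap.range E
  have hHE : ∀ y : H, E (y : N₁) = y := by
    rintro ⟨_, y, rfl⟩
    exact hE1 y
  let x : H := ⟨ι x₁, ι x₁, hE2⟩
  have hH : AlgCompact R H := hN₁.retract H.subtype E.rangeRestrict (fun y => Subtype.ext (hHE y))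
  -- the type of `x` is `P`
  have hxP : ∀ φ : PP R, φ.Holds x ↔ φ ∈ P := by
    intro φ
    constructor
    · intro hφ
      by_contra hno
      obtain ⟨β, hβ, hβ'⟩ := hmaxP φ hno
      apply hbadP β hβ
      apply hx₁'
      have h1 : φ.Holds x₁ := by
        have h2 : φ.Holds (H.subtype x) := hφ.map H.subtype
        exact PP.Holds.of_pure hι h2
      obtain ⟨F, hF, hFβ⟩ := hβ'
      apply hFβ X₁ x₁
      intro θ hθ
      rcases Set.mem_insert_iff.mp (hF hθ) with rfl | hθ'
      · exact h1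
      · exact hx₁ θ hθ'
    · intro hφ
      have h1 : φ.Holds (E.rangeRestrict (ι x₁)) := ((hx₁ φ hφ).map ι).map E.rangeRestrict
      have h2 : E.rangeRestrict (ι x₁) = x := Subtype.ext hE2
      rwa [h2] at h1
  have hbad : ∀ t u, t < u → ¬ (bas (r t) (s u)).Holds x := by
    intro t u htu hb
    rw [hxP] at hb
    refine hbadP _ ⟨t, u, htu, rfl⟩ ⟨{bas (r t) (s u)}, ?_, ?_⟩
    · simpa using hb
    · intro Y _ _ y hy
      exact hy _ (by simp)
  have hxe : e i • x = x := bas_zero_holds.mp ((hxP _).mpr (hbP (Or.inl rfl)))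
  have hxb : ∀ t, (bas (r t) (s t)).Holds x := fun t => (hxP _).mpr (hbP (Or.inr ⟨t, rfl⟩))
  have hinj : ∀ g : H →ₗ[R] H, g x = x → Function.Injective g := by
    intro g hg
    obtain ⟨b, hb⟩ := hE3 (H.subtype ∘ₗ g ∘ₗ E.rangeRestrict)
      (by
        have h2 : E.rangeRestrict (ι x₁) = x := Subtype.ext hE2
        simp only [LinearMap.comp_apply, h2, hg]
        rfl)
      (by
        intro y
        have h2 : E.rangeRestrict (E y) = E.rangeRestrict y := Subtype.ext (hE1 y)
        simp only [LinearMap.comp_apply, h2])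
    rw [injective_iff_map_eq_zero]
    intro y hy
    have h3 := hb y
    have h4 : E.rangeRestrict (y : N₁) = y := Subtype.ext (hHE y)
    simp only [LinearMap.comp_apply, h4, hy, map_zero, hHE] at h3
    exact Subtype.ext h3.symm
  refine ⟨H, inferInstance, inferInstance, hH.pureInjective, ?_, ?_⟩
  · refine ⟨⟨x, 0, fun hx0 => hbad 0 1 zero_lt_one ?_⟩⟩
    rw [hx0, bas_holds]
    exact ⟨0, by simp⟩
  · intro A B hAB hind
    have hA : AlgCompact R A := hH.retract A.subtype (A.projectionOnto B hAB)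
      (fun y => Submodule.projectionOnto_apply_left hAB y)
    have hB : IsCompl B A := hAB.symm
    let y : A := A.projectionOnto B hAB x
    let z : B := B.projectionOnto A hB x
    have hxyz : (y : H) + (z : H) = x := Submodule.projection_add_projection_eq_self hAB x
    -- some formula holds at `z` but not at `x`
    have hθ : ∃ θ : PP R, θ.Holds (z : H) ∧ ¬ θ.Holds x := by
      by_contra hno
      push Not at hno
      obtain ⟨g, hg⟩ := hH.exists_map hno
      have h1 := hinj (g ∘ₗ B.subtype ∘ₗ B.projectionOnto A hB) hg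
      obtain ⟨⟨a, ha⟩, hane⟩ := @exists_ne _ hind.1 (0 : A)
      apply hane
      have h2 : B.projectionOnto A hB a = 0 := by
        rw [Submodule.projectionOnto_apply_eq_zero_iff]; exact ha
      have h3 : (g ∘ₗ B.subtype ∘ₗ B.projectionOnto A hB) a =
          (g ∘ₗ B.subtype ∘ₗ B.projectionOnto A hB) 0 := by
        simp only [LinearMap.comp_apply, h2, map_zero]
      exact Subtype.ext (h1 h3)
    obtain ⟨θ, hθz, hθx⟩ := hθ
    have hzP : ∀ φ ∈ P, φ.Holds (z : H) := fun φ hφ =>
      (((hxP φ).mpr hφ).map (B.projectionOnto A hB)).map B.subtype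
    obtain ⟨β, ⟨t, u, htu, rfl⟩, F, hF, hFβ⟩ := hmaxP θ (fun hθP => hθx ((hxP θ).mpr hθP))
    have hzb : (bas (r t) (s u)).Holds (z : H) := by
      apply hFβ H (z : H)
      intro φ hφ
      rcases Set.mem_insert_iff.mp (hF hφ) with rfl | hφ'
      · exact hθz
      · exact hzP φ hφ'
    obtain ⟨τ, h1τ, h2τ⟩ := exists_between htu
    obtain ⟨c₁, hc₁⟩ := h.r_le t τ h1τ
    obtain ⟨c₂, hc₂⟩ := h.s_le τ u h2τ
    have hy1 : ¬ ∃ w : A, y = r τ • w := by
      rintro ⟨w, hw⟩
      apply hbad τ u h2τ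
      rw [← hxyz]
      apply bas_add
      · rw [bas_holds]
        refine ⟨(w : H), ?_⟩
        rw [hw]; rfl
      · exact bas_mono_left hc₁ hzb
    have hy2 : s τ • y ≠ 0 := by
      intro h0
      apply hbad t τ h1τ
      rw [← hxyz]
      apply bas_add
      · rw [bas_holds]
        refine ⟨0, ?_⟩
        have : s τ • (y : H) = 0 := congrArg Subtype.val h0
        rw [this]; simp
      · exact bas_mono_right hc₂ hzb
    have hye : e i • y = y := by
      have h3 := congrArg (A.projectionOnto B hAB) hxe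
      rwa [map_smul] at h3
    have hyb : (bas (r τ) (s τ)).Holds y := (hxb τ).map (A.projectionOnto B hAB)
    refine indec_decide hA hind (y := y) (ρ := r τ) (σ := s τ) ?_ hy1 hy2
    intro φ hφ
    exact (pp_normal_form hsum hidem hleft hright i φ).dist (hleft i) (hright i) hye
      (h.hr τ).1 (h.hs τ).2 hyb hφ

end

/-- A ring with serial data without a superdecomposable pure-injective left module has no rational
chain of two-sided ideals. -/
theorem exists_superdecomposable_of_chain {R : Type u} [Ring R] (hR : HasSerialData R)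
    (g : ℚ → TwoSidedIdeal R) (hg : StrictMono g) :
    ∃ (N : Type u) (_ : AddCommGroup N) (_ : Module R N),
      PureInjective R N ∧ Superdecomposable R N := by
  obtain ⟨n, e, hsum, hidem, _, hleft, hright⟩ := hR
  obtain ⟨j, i, r, s, hr, hs, hrs⟩ := exists_curve_of_chain hsum hidem hleft hright g hg
  exact exists_superdecomposable hsum hidem hleft hright (j := j) (i := i) (r := r) (s := s)
    ⟨hr, hs, fun t u h => (hrs t u h).1, fun t u h => (hrs t u h).2.1,
      fun t u h => (hrs t u h).2.2.1, fun t u h => (hrs t u h).2.2.2.1,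
      fun t u h => (hrs t u h).2.2.2.2⟩

end Pool.Agent.SerialKdim
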