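import Pool.Agent.SerialKdim.PP
import Pool.Agent.SerialKdim.RingData

/-!
Over a serial ring every formula at a local idempotent is a finite conjunction of basic formulas.
-/

namespace Pool.Agent.SerialKdim

universe u v

open Finsupp

section

variable {R : Type u} [Ring R]

/-- `z` is a combination of the columns in the list. -/
def InCols {J : Type} {X : Type u} [AddCommGroup X] [Module R X] :
    List (J → R) → (J → X) → Prop
  | [], z => ∀ j, z j = 0
  | c :: cs, z => ∃ y : X, InCols cs (fun j => z j - c j • y)

theorem InCols.congr {J : Type} {X : Type u} [AddCommGroup X] [Module R X]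
    {cs : List (J → R)} {z z' : J → X} (h : InCols cs z) (hz : ∀ j, z j = z' j) : InCols cs z' := by
  have : z = z' := funext hz
  rw [← this]; exact h

/-- Row operation on columns. -/
def rowR {J : Type} (v : J → R) (j₀ : J) (c : J → R) : J → R := fun j => c j - v j * c j₀

theorem inCols_row {J : Type} {X : Type u} [AddCommGroup X] [Module R X] (v : J → R) (j₀ : J)
    (hv : v j₀ = 0) (cs : List (J → R)) : ∀ z : J → X,
    InCols cs z ↔ InCols (cs.map (rowR v j₀)) (fun j => z j - v j • z j₀) := by
  induction cs with
  | nil =>
    intro z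
    simp only [List.map_nil, InCols]
    constructor
    · intro h j; rw [h j, h j₀, smul_zero, sub_zero]
    · intro h j
      have h0 : z j₀ = 0 := by simpa [hv] using h j₀
      have := h j
      rwa [h0, smul_zero, sub_zero] at this
  | cons c cs ih =>
    intro z
    simp only [List.map_cons, InCols]
    refine exists_congr fun y => ?_
    rw [ih]
    have : (fun j => z j - c j • y - v j • (z j₀ - c j₀ • y)) =
        (fun j => z j - v j • z j₀ - rowR v j₀ c j • y) := by
      funext j
      simp only [rowR, sub_smul, smul_sub, mul_smul]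
      abel
    rw [this]

theorem inCols_map_iff {J I : Type} {X : Type u} [AddCommGroup X] [Module R X]
    (col : I → J → R) (l : List I) (hl : l.Nodup) : ∀ z : J → X,
    InCols (l.map col) z ↔ ∃ y : I → X, ∀ j, z j = (l.map fun k => col k j • y k).sum := by
  classical
  induction l with
  | nil =>
    intro z
    simp only [List.map_nil, InCols, List.sum_nil]
    exact ⟨fun h => ⟨fun _ => 0, h⟩, fun ⟨_, h⟩ => h⟩
  | cons a l ih =>
    intro z
    rw [List.nodup_cons] at hl
    simp only [List.map_cons, InCols, List.sum_cons]
    constructor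
    · rintro ⟨y, hy⟩
      rw [ih hl.2] at hy
      obtain ⟨w, hw⟩ := hy
      refine ⟨Function.update w a y, fun j => ?_⟩
      rw [Function.update_self]
      have h1 : (l.map fun k => col k j • Function.update w a y k) =
          l.map fun k => col k j • w k := by
        apply List.map_congr_left
        intro k hk
        rw [Function.update_of_ne (by rintro rfl; exact hl.1 hk)]
      rw [h1, ← hw j]
      abel
    · rintro ⟨y, hy⟩
      refine ⟨y a, ?_⟩
      rw [ih hl.2]
      refine ⟨y, fun j => ?_⟩
      rw [hy j]; abel

/-- `F` is, on elements fixed by `e₀`, a finite conjunction of basic formulas. -/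
def NF (e₀ : R) (F : ∀ (X : Type u) [AddCommGroup X] [Module R X], X → Prop) : Prop :=
  ∃ L : List (R × R), (∀ p ∈ L, e₀ * p.1 = p.1 ∧ p.2 * e₀ = p.2) ∧
    ∀ (X : Type u) [AddCommGroup X] [Module R X] (x : X), e₀ • x = x →
      (F X x ↔ ∀ p ∈ L, (bas p.1 p.2).Holds x)

theorem NF.congr {e₀ : R} {F G : ∀ (X : Type u) [AddCommGroup X] [Module R X], X → Prop}
    (h : NF e₀ F) (hFG : ∀ (X : Type u) [AddCommGroup X] [Module R X] (x : X), e₀ • x = x →
      (F X x ↔ G X x)) : NF e₀ G := by
  obtain ⟨L, hL1, hL2⟩ := h
  exact ⟨L, hL1, fun X _ _ x hx => (hFG X x hx).symm.trans (hL2 X x hx)⟩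

theorem nf_forall {J : Type} [Fintype J] {e₀ : R}
    {F : J → ∀ (X : Type u) [AddCommGroup X] [Module R X], X → Prop} (h : ∀ j, NF e₀ (F j)) :
    NF e₀ (fun X _ _ x => ∀ j, F j X x) := by
  choose L hL1 hL2 using h
  refine ⟨(Finset.univ : Finset J).toList.flatMap L, ?_, ?_⟩
  · intro p hp
    obtain ⟨j, _, hj⟩ := List.mem_flatMap.mp hp
    exact hL1 j p hj
  · intro X _ _ x hx
    constructor
    · intro h p hp
      obtain ⟨j, _, hj⟩ := List.mem_flatMap.mp hp
      exact (hL2 j X x hx).mp (h j) p hj
    · intro h j
      exact (hL2 j X x hx).mpr fun p hp => h p (List.mem_flatMap.mpr ⟨j, by simp, hp⟩)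

theorem nf_div {e₀ a b : R} (hb : b * e₀ = b) (he₀ : e₀ * e₀ = e₀)
    (hch : (∃ c, a = b * c) ∨ (∃ c, b = a * c)) :
    NF e₀ (fun X _ _ x => ∃ y : X, a • y = b • x) := by
  rcases hch with ⟨c, rfl⟩ | ⟨c, rfl⟩
  · refine ⟨[(e₀ * c, b)], ?_, ?_⟩
    · intro p hp
      rw [List.mem_singleton] at hp
      subst hp
      exact ⟨by simp only [← mul_assoc, he₀], hb⟩
    · intro X _ _ x hx
      simp only [List.mem_singleton, forall_eq, bas_holds]
      refine exists_congr fun y => ?_
      rw [smul_smul, ← mul_assoc, hb]
  · refine ⟨[], by simp, fun X _ _ x hx => ?_⟩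
    simp only [List.not_mem_nil, false_implies, implies_true, iff_true]
    exact ⟨c • x, by rw [smul_smul]⟩

theorem nf_sys {n : ℕ} {e : Fin n → R} {e₀ : R} (he₀ : e₀ * e₀ = e₀)
    (hidem : ∀ i, e i * e i = e i)
    (hleft : ∀ i a b, a * e i = a → b * e i = b → (∃ c, a = c * b) ∨ (∃ c, b = c * a))
    (hright : ∀ i a b, e i * a = a → e i * b = b → (∃ c, a = b * c) ∨ (∃ c, b = a * c))
    {J : Type} [Fintype J] (p : J → Fin n) :
    ∀ (k : ℕ) (cs : List (J → R)), cs.length = k →
      (∀ c ∈ cs, (∀ j, e (p j) * c j = c j) ∧ ∃ q, ∀ j, c j * e q = c j) →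
      ∀ d : J → R, (∀ j, e (p j) * d j = d j ∧ ∃ q, d j * e q = d j) →
      ∀ b : J → R, (∀ j, e (p j) * b j = b j ∧ b j * e₀ = b j) →
      NF e₀ (fun X _ _ ξ => ∃ x : J → X, InCols cs (fun j => b j • ξ - d j • x j)) := by
  classical
  intro k
  induction k with
  | zero =>
    intro cs hcs _ d hd b hb
    rw [List.length_eq_zero_iff] at hcs
    subst hcs
    have h1 : NF e₀ (fun X _ _ ξ => ∀ j, ∃ x : X, d j • x = b j • ξ) :=
      nf_forall fun j => nf_div (hb j).2 he₀ (hright (p j) _ _ (hd j).1 (hb j).1)
    refine h1.congr fun X _ _ ξ _ => ?_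
    simp only [InCols]
    constructor
    · intro h
      choose x hx using h
      exact ⟨x, fun j => by rw [hx, sub_self]⟩
    · rintro ⟨x, hx⟩ j
      exact ⟨x j, (sub_eq_zero.mp (hx j)).symm⟩
  | succ k IH =>
    -- inner induction on the number of active rows
    have inner : ∀ (M : ℕ) (a : J → R), (∀ j, e (p j) * a j = a j) → (∃ q, ∀ j, a j * e q = a j) →
        ∀ cs : List (J → R), cs.length = k →
        (∀ c ∈ cs, (∀ j, e (p j) * c j = c j) ∧ ∃ q, ∀ j, c j * e q = c j) →
        ∀ d : J → R, (∀ j, e (p j) * d j = d j ∧ ∃ q, d j * e q = d j) →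
        ∀ b : J → R, (∀ j, e (p j) * b j = b j ∧ b j * e₀ = b j) →
        ∀ S : Finset J, S.card ≤ M → (∀ j, j ∉ S → ∃ c, a j = d j * c) →
        NF e₀ (fun X _ _ ξ => ∃ x : J → X, InCols (a :: cs) (fun j => b j • ξ - d j • x j)) := by
      intro M
      induction M with
      | zero =>
        intro a ha haq cs hcs hcst d hd b hb S hS hSc
        have hS0 : S = ∅ := Finset.card_eq_zero.mp (Nat.le_zero.mp hS)
        subst hS0
        choose c hc using fun j => hSc j (by simp)
        refine (IH cs hcs hcst d hd b hb).congr fun X _ _ ξ _ => ?_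
        simp only [InCols]
        constructor
        · rintro ⟨x, hx⟩
          exact ⟨x, 0, hx.congr fun j => by rw [smul_zero, sub_zero]⟩
        · rintro ⟨x, y, hx⟩
          refine ⟨fun j => x j + c j • y, hx.congr fun j => ?_⟩
          have : a j • y = d j • c j • y := by rw [smul_smul, ← hc j]
          rw [smul_add, this]; abel
      | succ M ihM =>
        intro a ha haq cs hcs hcst d hd b hb S hS hSc
        -- restrict to truly active rows
        let S' : Finset J := S.filter fun j => ¬ ∃ c, a j = d j * c
        have hS'c : ∀ j, j ∉ S' → ∃ c, a j = d j * c := by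
          intro j hj
          by_contra hno
          by_cases hjS : j ∈ S
          · exact hj (Finset.mem_filter.mpr ⟨hjS, hno⟩)
          · exact hno (hSc j hjS)
        rcases S'.eq_empty_or_nonempty with hemp | hne
        · exact ihM a ha haq cs hcs hcst d hd b hb ∅ (by simp) fun j _ => hS'c j (by simp [hemp])
        obtain ⟨q, hq⟩ := haq
        obtain ⟨j₀, hj₀, hmax⟩ := exists_max_of_chain (fun i j : J => ∃ c, a i = c * a j)
          (fun i j => hleft q _ _ (hq i) (hq j))
          (fun i j l ⟨c, hc⟩ ⟨c', hc'⟩ => ⟨c * c', by rw [hc, hc', mul_assoc]⟩) S' hne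
        -- multipliers
        have hw : ∃ w, d j₀ = a j₀ * w := by
          rcases hright (p j₀) _ _ (ha j₀) (hd j₀).1 with h | h
          · exact absurd h (Finset.mem_filter.mp hj₀).2
          · exact h
        obtain ⟨w, hw⟩ := hw
        have hv : ∀ j, ∃ v, (j ∈ S' → j ≠ j₀ → a j = v * a j₀) ∧ ((j ∉ S' ∨ j = j₀) → v = 0) ∧
            e (p j) * v = v := by
          intro j
          by_cases hj : j ∈ S' ∧ j ≠ j₀
          · obtain ⟨v, hv⟩ := hmax j hj.1
            refine ⟨e (p j) * v, fun _ _ => ?_, fun h => ?_, ?_⟩
            · rw [mul_assoc, ← hv, ha j]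
            · rcases h with h | h
              · exact absurd hj.1 h
              · exact absurd h hj.2
            · rw [← mul_assoc, hidem]
          · refine ⟨0, fun h1 h2 => absurd ⟨h1, h2⟩ hj, fun _ => rfl, mul_zero _⟩
        choose v hv1 hv2 hv3 using hv
        have hv0 : v j₀ = 0 := hv2 j₀ (Or.inr rfl)
        choose! c hc using hS'c
        let b' : J → R := rowR v j₀ b
        let d' : J → R := Function.update d j₀ (a j₀)
        let a' : J → R := fun j => -(v j * d j₀)
        have hrow : ∀ f : J → R, (∀ j, e (p j) * f j = f j) →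
            ∀ j, e (p j) * rowR v j₀ f j = rowR v j₀ f j := by
          intro f hf j
          simp only [rowR, mul_sub, hf, ← mul_assoc, hv3]
        have hcol : ∀ (f : J → R) (r : R), (∀ j, f j * r = f j) →
            ∀ j, rowR v j₀ f j * r = rowR v j₀ f j := by
          intro f r hf j
          simp only [rowR, sub_mul, hf, mul_assoc]
        have key := ihM a' (fun j => by simp only [a', mul_neg, ← mul_assoc, hv3])
          (by
            obtain ⟨q', hq'⟩ := (hd j₀).2
            exact ⟨q', fun j => by simp only [a', neg_mul, mul_assoc, hq']⟩)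
          (cs.map (rowR v j₀)) (by rw [List.length_map, hcs])
          (by
            intro f hf
            obtain ⟨g, hg, rfl⟩ := List.mem_map.mp hf
            refine ⟨hrow g (hcst g hg).1, ?_⟩
            obtain ⟨q', hq'⟩ := (hcst g hg).2
            exact ⟨q', hcol g _ hq'⟩)
          d' (by
            intro j
            by_cases hj : j = j₀
            · subst hj
              simp only [d', Function.update_self]
              exact ⟨ha j, q, hq j⟩
            · simp only [d', Function.update_of_ne hj]
              exact hd j)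
          b' (fun j => ⟨hrow b (fun j => (hb j).1) j, hcol b _ (fun j => (hb j).2) j⟩)
          (S'.erase j₀) (by
            have h1 : (S'.erase j₀).card < S'.card := Finset.card_erase_lt_of_mem hj₀
            have h2 : S'.card ≤ S.card := Finset.card_filter_le _ _
            omega)
          (by
            intro j hj
            refine ⟨0, ?_⟩
            have : v j = 0 := hv2 j (by
              by_cases hj' : j = j₀
              · exact Or.inr hj'
              · left
                intro h
                exact hj (Finset.mem_erase.mpr ⟨hj', h⟩))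
            simp only [a', this, zero_mul, neg_zero, mul_zero])
        refine key.congr fun X _ _ ξ _ => ?_
        simp only [InCols]
        constructor
        · rintro ⟨x', y', hx'⟩
          let y : X := x' j₀ - w • y'
          let x : J → X := fun j => if j = j₀ then y' else if j ∈ S' then x' j else x' j - c j • y
          refine ⟨x, y, (inCols_row v j₀ hv0 cs _).mpr (hx'.congr fun j => ?_)⟩
          simp only [b', a', rowR]
          by_cases hj : j = j₀
          · subst hj
            have h1 : d j • y' = a j • w • y' := by rw [smul_smul, ← hw]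
            simp only [x, d', y, Function.update_self, if_true, hv0, zero_mul, zero_smul,
              sub_zero, neg_zero, smul_sub, h1]
            abel
          · by_cases hjS : j ∈ S'
            · have h1 : a j • y = v j • a j₀ • y := by rw [smul_smul, ← hv1 j hjS hj]
              simp only [x, d', Function.update_of_ne hj, if_neg hj, if_pos hjS, if_true, sub_smul,
                mul_smul, smul_sub, neg_smul, h1]
              abel
            · have hvj : v j = 0 := hv2 j (Or.inl hjS)
              have h1 : a j • y = d j • c j • y := by rw [smul_smul, ← hc j hjS]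
              simp only [x, d', Function.update_of_ne hj, if_neg hj, if_neg hjS, hvj, zero_mul,
                zero_smul, sub_zero, neg_zero, smul_sub, h1]
              abel
        · rintro ⟨x, y, hx⟩
          let x' : J → X := fun j =>
            if j = j₀ then w • x j₀ + y else if j ∈ S' then x j else x j + c j • y
          refine ⟨x', x j₀, ((inCols_row v j₀ hv0 cs _).mp hx).congr fun j => ?_⟩
          simp only [b', a', rowR]
          by_cases hj : j = j₀
          · subst hj
            have h1 : d j • x j = a j • w • x j := by rw [smul_smul, ← hw]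
            simp only [x', d', Function.update_self, if_true, hv0, zero_mul, zero_smul,
              sub_zero, neg_zero, smul_add, h1]
            abel
          · by_cases hjS : j ∈ S'
            · have h1 : a j • y = v j • a j₀ • y := by rw [smul_smul, ← hv1 j hjS hj]
              simp only [x', d', Function.update_of_ne hj, if_neg hj, if_pos hjS, sub_smul,
                mul_smul, smul_sub, neg_smul, h1]
              abel
            · have hvj : v j = 0 := hv2 j (Or.inl hjS)
              have h1 : a j • y = d j • c j • y := by rw [smul_smul, ← hc j hjS]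
              simp only [x', d', Function.update_of_ne hj, if_neg hj, if_neg hjS, hvj, zero_mul,
                zero_smul, sub_zero, neg_zero, smul_add, h1]
              abel
    intro cs hcs hcst d hd b hb
    obtain ⟨a, cs', rfl⟩ : ∃ a cs', cs = a :: cs' := by
      cases cs with
      | nil => simp at hcs
      | cons a cs' => exact ⟨a, cs', rfl⟩
    have ha := hcst a (by simp)
    exact inner Finset.univ.card a ha.1 ha.2 cs' (by simpa using hcs)
      (fun c hc => hcst c (by simp [hc])) d hd b hb Finset.univ le_rfl (by simp)

/-- Normal form of formulas over a serial ring. -/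
theorem pp_normal_form {n : ℕ} {e : Fin n → R} (hsum : ∑ i, e i = 1)
    (hidem : ∀ i, e i * e i = e i)
    (hleft : ∀ i a b, a * e i = a → b * e i = b → (∃ c, a = c * b) ∨ (∃ c, b = c * a))
    (hright : ∀ i a b, e i * a = a → e i * b = b → (∃ c, a = b * c) ∨ (∃ c, b = a * c))
    (i₀ : Fin n) (φ : PP R) : NF (e i₀) (fun X _ _ x => φ.Holds x) := by
  classical
  let col : Fin φ.n × Fin n → Fin φ.m × Fin n → R := fun k j => e j.2 * φ.A j.1 k.1 * e k.2
  have h1 := nf_sys (e₀ := e i₀) (hidem i₀) hidem hleft hright
    (fun j : Fin φ.m × Fin n => j.2) _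
    ((Finset.univ : Finset (Fin φ.n × Fin n)).toList.map col) rfl
    (by
      intro c hc
      obtain ⟨k, _, rfl⟩ := List.mem_map.mp hc
      exact ⟨fun j => by simp only [col, ← mul_assoc, hidem],
        k.2, fun j => by simp only [col, mul_assoc, hidem]⟩)
    (fun _ => 0) (fun j => ⟨mul_zero _, i₀, zero_mul _⟩)
    (fun j => e j.2 * φ.b j.1 * e i₀)
    (fun j => ⟨by simp only [← mul_assoc, hidem], by simp only [mul_assoc, hidem]⟩)
  refine h1.congr fun X _ _ x hx => ?_
  have hone : ∀ y : X, ∑ q, e q • y = y := by
    intro y
    rw [← Finset.sum_smul, hsum, one_smul]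
  have hlist : ∀ (y : Fin φ.n × Fin n → X) (j : Fin φ.m × Fin n),
      ((Finset.univ : Finset (Fin φ.n × Fin n)).toList.map fun k => col k j • y k).sum =
        ∑ k, col k j • y k := fun y j => Finset.sum_map_toList _ _
  constructor
  · rintro ⟨_, hy⟩
    have hy' := (inCols_map_iff col _ (Finset.nodup_toList _) _).mp hy
    obtain ⟨y, hy⟩ := hy'
    refine ⟨fun j => ∑ q, e q • y (j, q), fun i => ?_⟩
    rw [← hone (∑ j, φ.A i j • ∑ q, e q • y (j, q)), ← hone (φ.b i • x)]
    refine Finset.sum_congr rfl fun r _ => ?_
    have h2 := hy (i, r)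
    rw [hlist] at h2
    simp only [zero_smul, sub_zero, col] at h2
    rw [mul_smul, hx, mul_smul] at h2
    rw [h2, Fintype.sum_prod_type, Finset.smul_sum]
    refine Finset.sum_congr rfl fun j _ => ?_
    rw [Finset.smul_sum, Finset.smul_sum]
    refine Finset.sum_congr rfl fun q _ => ?_
    simp only [smul_smul, mul_assoc]
  · rintro ⟨y, hy⟩
    refine ⟨fun _ => 0, (inCols_map_iff col _ (Finset.nodup_toList _) _).mpr
      ⟨fun k => y k.1, fun j => ?_⟩⟩
    rw [hlist, smul_zero, sub_zero, mul_smul, hx, mul_smul, ← hy j.1, Finset.smul_sum,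
      Fintype.sum_prod_type]
    refine Finset.sum_congr rfl fun i _ => ?_
    conv_lhs => rw [← hone (y i), Finset.smul_sum, Finset.smul_sum]
    refine Finset.sum_congr rfl fun q _ => ?_
    simp only [col, smul_smul, mul_assoc]

end

end Pool.Agent.SerialKdim
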