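import Pool.Agent.SerialKdim.AlgComp

/-!
Solution sets, idempotents and hulls in algebraically compact modules.
-/

namespace Pool.Agent.SerialKdim

universe u

open Finsupp

section

variable (R : Type u) [Ring R]

/-- Projections of solution sets of systems of linear equations. -/
def IsSol {N : Type u} [AddCommGroup N] [Module R N] {ι : Type u} (S : Set (ι → N)) : Prop :=
  ∃ (J : Type u) (E : Set (((ι ⊕ J) →₀ R) × N)),
    S = {m | ∃ w : J → N, ∀ p ∈ E, linearCombination R (Sum.elim m w) p.1 = p.2}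

variable {R} {N : Type u} [AddCommGroup N] [Module R N]

theorem lc_mapDomain {K K' : Type*} (φ : K → K') (ρ : K →₀ R) (m : K' → N) :
    linearCombination R m (mapDomain φ ρ) = linearCombination R (m ∘ φ) ρ := by
  rw [linearCombination_mapDomain]

/-- The family version: in an algebraically compact module a family of solution sets in which
finite subfamilies have nonempty intersections has nonempty intersection. -/
theorem AlgCompact.iInter_nonempty (h : AlgCompact R N) {ι T : Type u} (S : T → Set (ι → N))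
    (hS : ∀ t, IsSol R (S t)) (hfin : ∀ F : Finset T, ∃ m, ∀ t ∈ F, m ∈ S t) :
    ∃ m, ∀ t, m ∈ S t := by
  classical
  choose J E hE using hS
  let K := ι ⊕ (Σ t, J t)
  let φ : ∀ t, ι ⊕ J t → K := fun t => Sum.map id (Sigma.mk t)
  obtain ⟨m, hm⟩ := h K {p | ∃ t, ∃ q ∈ E t, p = (mapDomain (φ t) q.1, q.2)} (by
    intro F hF
    have hF' : ∀ p ∈ F, ∃ t, ∃ q ∈ E t, p = (mapDomain (φ t) q.1, q.2) := fun p hp => hF hp
    rcases F.eq_empty_or_nonempty with rfl | ⟨p₀, hp₀⟩
    · exact ⟨fun _ => 0, by simp⟩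
    haveI : Nonempty T := ⟨(hF' p₀ hp₀).choose⟩
    choose! t q hq1 hq2 using hF'
    obtain ⟨m, hm⟩ := hfin (F.image t)
    have hw : ∀ s, ∃ w : J s → N, s ∈ F.image t →
        ∀ p ∈ E s, linearCombination R (Sum.elim m w) p.1 = p.2 := by
      intro s
      by_cases hs : s ∈ F.image t
      · have := hm s hs
        rw [hE s] at this
        obtain ⟨w, hw⟩ := this
        exact ⟨w, fun _ => hw⟩
      · exact ⟨fun _ => 0, fun h => absurd h hs⟩
    choose w hw using hw
    refine ⟨Sum.elim m (fun x => w x.1 x.2), fun p hp => ?_⟩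
    have h1 := hq2 p hp
    rw [h1]
    change linearCombination R _ (mapDomain (φ (t p)) (q p).1) = (q p).2
    rw [lc_mapDomain]
    have h2 := hw (t p) (Finset.mem_image_of_mem t hp) (q p) (hq1 p hp)
    rw [← h2]
    congr 2
    funext x
    rcases x with x | x <;> rfl)
  refine ⟨fun i => m (Sum.inl i), fun t => ?_⟩
  rw [hE t]
  refine ⟨fun j => m (Sum.inr ⟨t, j⟩), fun p hp => ?_⟩
  have := hm (mapDomain (φ t) p.1, p.2) ⟨t, p, hp, rfl⟩
  simp only [lc_mapDomain] at this
  rw [← this]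
  congr 2
  funext x
  rcases x with x | x <;> rfl

theorem IsSol.iInter {ι T : Type u} (S : T → Set (ι → N)) (hS : ∀ t, IsSol R (S t)) :
    IsSol R {m | ∀ t, m ∈ S t} := by
  classical
  choose J E hE using hS
  let φ : ∀ t, ι ⊕ J t → ι ⊕ (Σ t, J t) := fun t => Sum.map id (Sigma.mk t)
  refine ⟨Σ t, J t, {p | ∃ t, ∃ q ∈ E t, p = (mapDomain (φ t) q.1, q.2)}, ?_⟩
  ext m
  simp only [Set.mem_setOf_eq]
  constructor
  · intro hm
    have hw : ∀ t, ∃ w : J t → N, ∀ p ∈ E t, linearCombination R (Sum.elim m w) p.1 = p.2 := by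
      intro t
      have := hm t
      rw [hE t] at this
      exact this
    choose w hw using hw
    refine ⟨fun x => w x.1 x.2, ?_⟩
    rintro p ⟨t, q, hq, rfl⟩
    simp only [lc_mapDomain]
    rw [← hw t q hq]
    congr 2
    funext x
    rcases x with x | x <;> rfl
  · rintro ⟨w, hw⟩ t
    rw [hE t]
    refine ⟨fun j => w ⟨t, j⟩, fun p hp => ?_⟩
    have := hw (mapDomain (φ t) p.1, p.2) ⟨t, p, hp, rfl⟩
    simp only [lc_mapDomain] at this
    rw [← this]
    congr 2
    funext x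
    rcases x with x | x <;> rfl

theorem IsSol.inter {ι : Type u} {S S' : Set (ι → N)} (hS : IsSol R S) (hS' : IsSol R S') :
    IsSol R (S ∩ S') := by
  have := IsSol.iInter (R := R) (T := ULift Bool)
    (fun t => if t.down then S else S') (by
      rintro ⟨t⟩; cases t <;> simp [hS, hS'])
  convert this using 1
  ext m
  simp only [Set.mem_inter_iff, Set.mem_setOf_eq, ULift.forall, Bool.forall_bool]
  simp [and_comm]

/-- Solution sets given by equations without auxiliary unknowns. -/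
theorem isSol_of_eqs {ι : Type u} (E : Set ((ι →₀ R) × N)) :
    IsSol R {m : ι → N | ∀ p ∈ E, linearCombination R m p.1 = p.2} := by
  refine ⟨PEmpty, {p | ∃ q ∈ E, p = (mapDomain Sum.inl q.1, q.2)}, ?_⟩
  ext m
  simp only [Set.mem_setOf_eq]
  constructor
  · intro hm
    refine ⟨fun x => x.elim, ?_⟩
    rintro p ⟨q, hq, rfl⟩
    simp only [lc_mapDomain]
    rw [← hm q hq]
    rfl
  · rintro ⟨w, hw⟩ p hp
    have := hw _ ⟨p, hp, rfl⟩
    simp only [lc_mapDomain] at this
    rw [← this]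
    rfl

/-- Solution sets are closed under precomposition with a fixed map. -/
theorem IsSol.comp_right {ι κ : Type u} {S : Set (ι → N)} (hS : IsSol R S) (a : κ → ι) :
    IsSol R {c : κ → N | ∃ b ∈ S, c = b ∘ a} := by
  obtain ⟨J, E, hE⟩ := hS
  refine ⟨ι ⊕ J, {p | (∃ q ∈ E, p = (mapDomain Sum.inr q.1, q.2)) ∨
    ∃ k : κ, p = (single (Sum.inl k) 1 - single (Sum.inr (Sum.inl (a k))) 1, 0)}, ?_⟩
  ext c
  simp only [Set.mem_setOf_eq]
  constructor
  · rintro ⟨b, hb, rfl⟩
    rw [hE] at hb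
    obtain ⟨w, hw⟩ := hb
    refine ⟨Sum.elim b w, ?_⟩
    rintro p (⟨q, hq, rfl⟩ | ⟨k, rfl⟩)
    · simp only [lc_mapDomain]
      exact hw q hq
    · simp
  · rintro ⟨w, hw⟩
    refine ⟨fun i => w (Sum.inl i), ?_, ?_⟩
    · rw [hE]
      refine ⟨fun j => w (Sum.inr j), fun p hp => ?_⟩
      have := hw _ (Or.inl ⟨p, hp, rfl⟩)
      simp only [lc_mapDomain] at this
      rw [← this]
      congr 2
      funext x
      rcases x with x | x <;> rfl
    · funext k
      have := hw _ (Or.inr ⟨k, rfl⟩)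
      simp only [map_sub, linearCombination_single, one_smul, Sum.elim_inl, Sum.elim_inr] at this
      exact sub_eq_zero.mp this

theorem isSol_comp_eq {ι κ : Type u} (a : κ → ι) (c : κ → N) :
    IsSol R {b : ι → N | b ∘ a = c} := by
  have := isSol_of_eqs (R := R) (N := N) {p : (ι →₀ R) × N | ∃ k, p = (single (a k) 1, c k)}
  convert this using 1
  ext b
  simp only [Set.mem_setOf_eq]
  constructor
  · rintro hb p ⟨k, rfl⟩
    simp [← hb]
  · intro h
    funext k
    have := h _ ⟨k, rfl⟩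
    simpa using this

theorem isSol_eval {ι : Type u} (x : ι) (c : N) :
    IsSol R {b : ι → N | b x = c} := by
  have := isSol_of_eqs (R := R) (N := N) {p : (ι →₀ R) × N | p = (single x 1, c)}
  convert this using 1
  ext b
  simp

theorem isSol_linear : IsSol R {f : N → N | (∀ x y, f (x + y) = f x + f y) ∧
    ∀ (r : R) x, f (r • x) = r • f x} := by
  have := isSol_of_eqs (R := R) (N := N) {p : (N →₀ R) × N |
    (∃ x y, p = (single (x + y) 1 - single x 1 - single y 1, 0)) ∨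
    ∃ r x, p = (single (r • x) 1 - single x r, 0)}
  convert this using 1
  ext f
  simp only [Set.mem_setOf_eq]
  constructor
  · rintro ⟨h1, h2⟩ p (⟨x, y, rfl⟩ | ⟨r, x, rfl⟩)
    · simp [h1]
    · simp [h2]
  · intro h
    constructor
    · intro x y
      have := h _ (Or.inl ⟨x, y, rfl⟩)
      simp only [map_sub, linearCombination_single, one_smul] at this
      rw [sub_sub, sub_eq_zero] at this
      exact this
    · intro r x
      have := h _ (Or.inr ⟨r, x, rfl⟩)
      simp only [map_sub, linearCombination_single, one_smul] at this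
      exact sub_eq_zero.mp this

/-- Intersections of nonempty chains of nonempty solution sets are nonempty solution sets. -/
theorem AlgCompact.sInter_chain (h : AlgCompact R N) {ι : Type u} (c : Set (Set (ι → N)))
    (hc : ∀ S ∈ c, IsSol R S ∧ S.Nonempty) (hch : IsChain (· ⊆ ·) c) (hne : c.Nonempty) :
    IsSol R (⋂₀ c) ∧ (⋂₀ c).Nonempty := by
  classical
  have hs : ∀ t : c, IsSol R (t : Set (ι → N)) := fun t => (hc t.1 t.2).1
  constructor
  · have := IsSol.iInter (R := R) (T := c) (fun t => (t : Set (ι → N))) hs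
    convert this using 1
    ext m
    simp
  · obtain ⟨m, hm⟩ := h.iInter_nonempty (T := c) (fun t => (t : Set (ι → N))) hs (by
      intro F
      rcases F.eq_empty_or_nonempty with rfl | hF
      · obtain ⟨S, hS⟩ := hne
        obtain ⟨m, _⟩ := (hc S hS).2
        exact ⟨m, by simp⟩
      · have : ∃ t ∈ F, ∀ s ∈ F, (t : Set (ι → N)) ⊆ s := by
          induction hF using Finset.Nonempty.cons_induction with
          | singleton a => exact ⟨a, by simp, by simp⟩
          | cons a s ha hs ih =>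
            obtain ⟨t, ht, ht'⟩ := ih
            rcases hch.total a.2 t.2 with hat | hta
            · refine ⟨a, Finset.mem_cons_self _ _, fun b hb => ?_⟩
              rcases Finset.mem_cons.mp hb with rfl | hb
              · exact subset_rfl
              · exact hat.trans (ht' b hb)
            · refine ⟨t, Finset.mem_cons_of_mem ht, fun b hb => ?_⟩
              rcases Finset.mem_cons.mp hb with rfl | hb
              · exact hta
              · exact ht' b hb
        obtain ⟨t, _, ht'⟩ := this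
        obtain ⟨m, hm⟩ := (hc t.1 t.2).2
        exact ⟨m, fun s hs => ht' s hs hm⟩)
    exact ⟨m, fun S hS => hm ⟨S, hS⟩⟩

/-- The Ellis-Numakura lemma for solution sets. -/
theorem AlgCompact.exists_idempotent (h : AlgCompact R N) (S : Set (N → N)) (hS : IsSol R S)
    (hne : S.Nonempty) (hcomp : ∀ a ∈ S, ∀ b ∈ S, a ∘ b ∈ S) : ∃ e ∈ S, e ∘ e = e := by
  let 𝒞 : Set (Set (N → N)) :=
    {T | (IsSol R T ∧ T.Nonempty) ∧ (∀ a ∈ T, ∀ b ∈ T, a ∘ b ∈ T)}
  obtain ⟨T, hTS, hT⟩ := zorn_superset_nonempty 𝒞 (by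
    intro c hc hch hcne
    have h1 := h.sInter_chain c (fun S hS => (hc hS).1) hch hcne
    refine ⟨⋂₀ c, ⟨h1, fun a ha b hb S hS => (hc hS).2 a (ha S hS) b (hb S hS)⟩, fun s hs =>
      Set.sInter_subset_of_mem hs⟩) S ⟨⟨hS, hne⟩, hcomp⟩
  obtain ⟨⟨⟨hTs, a, ha⟩, hTc⟩, hmin⟩ := hT
  have h1 : {c : N → N | ∃ b ∈ T, c = b ∘ a} = T := by
    apply Set.Subset.antisymm
    · rintro _ ⟨b, hb, rfl⟩
      exact hTc b hb a ha
    · refine hmin ⟨⟨hTs.comp_right a, a ∘ a, a, ha, rfl⟩, ?_⟩ ?_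
      · rintro _ ⟨b, hb, rfl⟩ _ ⟨b', hb', rfl⟩
        exact ⟨b ∘ a ∘ b', hTc b hb _ (hTc a ha b' hb'), rfl⟩
      · rintro _ ⟨b, hb, rfl⟩
        exact hTc b hb a ha
  obtain ⟨b, hb, hba⟩ : ∃ b ∈ T, a = b ∘ a := by
    have : a ∈ {c : N → N | ∃ b ∈ T, c = b ∘ a} := by rw [h1]; exact ha
    exact this
  have h2 : T ∩ {b | b ∘ a = a} = T := by
    apply Set.Subset.antisymm Set.inter_subset_left
    refine hmin ⟨⟨hTs.inter (isSol_comp_eq a a), b, hb, hba.symm⟩, ?_⟩ Set.inter_subset_left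
    rintro x ⟨hx, hxa⟩ y ⟨hy, hya⟩
    refine ⟨hTc x hx y hy, ?_⟩
    change (x ∘ y) ∘ a = a
    change x ∘ a = a at hxa
    change y ∘ a = a at hya
    rw [Function.comp_assoc, hya, hxa]
  have h3 : a ∈ T ∩ {b | b ∘ a = a} := by rw [h2]; exact ha
  exact ⟨a, hTS ha, h3.2⟩

/-- Existence of hulls: an idempotent `e` fixing `x` such that endomorphisms of the range of `e`
fixing `x` are injective on the range of `e`. -/
theorem AlgCompact.exists_hull (h : AlgCompact R N) (x : N) :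
    ∃ e : N →ₗ[R] N, (∀ y, e (e y) = e y) ∧ e x = x ∧
      ∀ f : N →ₗ[R] N, f x = x → (∀ y, f (e y) = f y) → ∃ b : N →ₗ[R] N, ∀ y, b (f y) = e y := by
  let Ex : Set (N → N) := {f | ((∀ x y, f (x + y) = f x + f y) ∧
    ∀ (r : R) x, f (r • x) = r • f x)} ∩ {f | f x = x}
  have hEx : IsSol R Ex := isSol_linear.inter (isSol_eval x x)
  have hExc : ∀ a ∈ Ex, ∀ b ∈ Ex, a ∘ b ∈ Ex := by
    rintro a ⟨⟨ha1, ha2⟩, ha3⟩ b ⟨⟨hb1, hb2⟩, hb3⟩
    refine ⟨⟨fun y z => ?_, fun r y => ?_⟩, ?_⟩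
    · simp only [Function.comp_apply, hb1, ha1]
    · simp only [Function.comp_apply, hb2, ha2]
    · change a (b x) = x
      change a x = x at ha3
      change b x = x at hb3
      rw [hb3, ha3]
  have hExid : id ∈ Ex := ⟨⟨fun _ _ => rfl, fun _ _ => rfl⟩, rfl⟩
  let 𝒞 : Set (Set (N → N)) :=
    {T | (IsSol R T ∧ T.Nonempty) ∧ T ⊆ Ex ∧ (∀ a ∈ Ex, ∀ b ∈ T, a ∘ b ∈ T)}
  obtain ⟨T, hTS, hT⟩ := zorn_superset_nonempty 𝒞 (by
    intro c hc hch hcne
    have h1 := h.sInter_chain c (fun S hS => (hc hS).1) hch hcne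
    refine ⟨⋂₀ c, ⟨h1, ?_, fun a ha b hb S hS => (hc hS).2.2 a ha b (hb S hS)⟩, fun s hs =>
      Set.sInter_subset_of_mem hs⟩
    obtain ⟨S, hS⟩ := hcne
    exact fun a ha => (hc hS).2.1 (ha S hS)) Ex ⟨⟨hEx, ⟨id, hExid⟩⟩, subset_rfl, hExc⟩
  obtain ⟨⟨⟨hTs, hTne⟩, hTE, hTc⟩, hmin⟩ := hT
  obtain ⟨e, heT, hee⟩ := h.exists_idempotent T hTs hTne (fun a ha b hb => hTc a (hTE ha) b hb)
  obtain ⟨⟨he1, he2⟩, he3⟩ := hTE heT
  refine ⟨{ toFun := e, map_add' := he1, map_smul' := he2 }, fun y => congrFun hee y, he3, ?_⟩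
  intro f hfx hfe
  have hfEx : (f : N → N) ∈ Ex := ⟨⟨f.map_add, f.map_smul⟩, hfx⟩
  have hfT : (f : N → N) ∈ T := by
    have := hTc f hfEx e heT
    convert this using 1
    funext y
    exact (hfe y).symm
  have h1 : {c : N → N | ∃ b ∈ T, c = b ∘ (f : N → N)} = T := by
    apply Set.Subset.antisymm
    · rintro _ ⟨b, hb, rfl⟩
      exact hTc b (hTE hb) f hfT
    · refine hmin ⟨⟨hTs.comp_right f, f ∘ f, f, hfT, rfl⟩, ?_, ?_⟩ ?_
      · rintro _ ⟨b, hb, rfl⟩
        exact hExc b (hTE hb) f hfEx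
      · rintro a ha _ ⟨b, hb, rfl⟩
        exact ⟨a ∘ b, hTc a ha b hb, rfl⟩
      · rintro _ ⟨b, hb, rfl⟩
        exact hTc b (hTE hb) f hfT
  obtain ⟨b, hb, hbe⟩ : ∃ b ∈ T, e = b ∘ (f : N → N) := by
    have : e ∈ {c : N → N | ∃ b ∈ T, c = b ∘ (f : N → N)} := by rw [h1]; exact heT
    exact this
  obtain ⟨⟨hb1, hb2⟩, _⟩ := hTE hb
  exact ⟨{ toFun := b, map_add' := hb1, map_smul' := hb2 }, fun y => (congrFun hbe y).symm⟩

end

end Pool.Agent.SerialKdim
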