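import Pool.Agent.SerialKdim.Dual
import Pool.Agent.SerialKdim.Sol

/-!
Positive primitive formulas in one free variable, entailment, realisation, maximal types.
-/

namespace Pool.Agent.SerialKdim

universe u v

open Finsupp

/-- A positive primitive formula in one free variable. -/
structure PP (R : Type u) where
  /-- number of bound variables -/
  n : ℕ
  /-- number of equations -/
  m : ℕ
  /-- coefficients of the bound variables -/
  A : Fin m → Fin n → R
  /-- coefficients of the free variable -/
  b : Fin m → R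

section

variable {R : Type u} [Ring R]

/-- The formula holds at `x`. -/
def PP.Holds (φ : PP R) {X : Type v} [AddCommGroup X] [Module R X] (x : X) : Prop :=
  ∃ y : Fin φ.n → X, ∀ i, ∑ j, φ.A i j • y j = φ.b i • x

theorem PP.Holds.map {φ : PP R} {X Y : Type v} [AddCommGroup X] [Module R X] [AddCommGroup Y]
    [Module R Y] {x : X} (h : φ.Holds x) (f : X →ₗ[R] Y) : φ.Holds (f x) := by
  obtain ⟨y, hy⟩ := h
  refine ⟨fun j => f (y j), fun i => ?_⟩
  rw [← map_smul, ← hy i, map_sum]
  simp

theorem PP.Holds.of_pure {φ : PP R} {X Y : Type v} [AddCommGroup X] [Module R X] [AddCommGroup Y]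
    [Module R Y] {x : X} {f : X →ₗ[R] Y} (hf : PureEmbedding f) (h : φ.Holds (f x)) :
    φ.Holds x := by
  obtain ⟨y, hy⟩ := h
  exact hf.2 φ.m φ.n φ.A (fun i => φ.b i • x) ⟨y, fun i => by rw [hy i, map_smul]⟩

/-- A finite system with arbitrary type of unknowns is equivalent to a formula. -/
theorem exists_pp_of_rels {K : Type v} (F : Finset ((K →₀ R) × R)) :
    ∃ φ : PP R, ∀ (X : Type v) [AddCommGroup X] [Module R X] (x : X),
      φ.Holds x ↔ ∃ y : K → X, ∀ p ∈ F, linearCombination R y p.1 = p.2 • x := by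
  classical
  let S : Finset K := F.biUnion fun p => p.1.support
  have hS : ∀ p ∈ F, p.1.support ⊆ S := fun p hp =>
    Finset.subset_biUnion_of_mem (fun p : (K →₀ R) × R => p.1.support) hp
  let eS := S.equivFin
  let eF := F.equivFin
  have hsum : ∀ {N : Type v} [AddCommGroup N] [Module R N] (z : K → N) (p) (_ : p ∈ F),
      linearCombination R z p.1 = ∑ j, p.1 (eS.symm j).1 • z (eS.symm j).1 := by
    intro N _ _ z p hp
    rw [linearCombination_apply, Finsupp.sum_of_support_subset _ (hS p hp) _ (by simp),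
      ← Finset.sum_coe_sort S, ← Equiv.sum_comp eS.symm]
  refine ⟨⟨S.card, F.card, fun i j => (eF.symm i).1.1 (eS.symm j).1, fun i => (eF.symm i).1.2⟩,
    fun X _ _ x => ⟨?_, ?_⟩⟩
  · rintro ⟨w, hw⟩
    refine ⟨fun k => if hk : k ∈ S then w (eS ⟨k, hk⟩) else 0, fun p hp => ?_⟩
    rw [hsum _ _ hp]
    have := hw (eF ⟨p, hp⟩)
    simp only [Equiv.symm_apply_apply] at this
    rw [← this]
    refine Finset.sum_congr rfl fun j _ => ?_
    rw [dif_pos (eS.symm j).2]
    simp
  · rintro ⟨y, hy⟩
    refine ⟨fun j => y (eS.symm j).1, fun i => ?_⟩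
    change ∑ j, (eF.symm i).1.1 (eS.symm j).1 • y (eS.symm j).1 = (eF.symm i).1.2 • x
    rw [← hsum _ _ (eF.symm i).2, hy _ (eF.symm i).2]

/-- Entailment of a formula by a set of formulas. -/
def Entails (P : Set (PP R)) (ρ : PP R) : Prop :=
  ∃ F : Finset (PP R), (F : Set (PP R)) ⊆ P ∧
    ∀ (Y : Type u) [AddCommGroup Y] [Module R Y] (y : Y), (∀ φ ∈ F, φ.Holds y) → ρ.Holds y

/-- Every set of formulas is realised freely. -/
theorem exists_realisation (P : Set (PP R)) :
    ∃ (X : Type u) (_ : AddCommGroup X) (_ : Module R X) (x : X),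
      (∀ φ ∈ P, φ.Holds x) ∧ ∀ ρ : PP R, ρ.Holds x → Entails P ρ := by
  classical
  let K := Option (Σ φ : P, Fin φ.1.n)
  let I := Σ φ : P, Fin φ.1.m
  let rel : I → (K →₀ R) := fun i =>
    ∑ j, single (some ⟨i.1, j⟩ : K) (i.1.1.A i.2 j) - single (none : K) (i.1.1.b i.2)
  let S : Submodule R (K →₀ R) := Submodule.span R (Set.range rel)
  refine ⟨(K →₀ R) ⧸ S, inferInstance, inferInstance, S.mkQ (single none 1), ?_, ?_⟩
  · intro φ hφ
    refine ⟨fun j => S.mkQ (single (some ⟨⟨φ, hφ⟩, j⟩) 1), fun i => ?_⟩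
    have h1 : rel ⟨⟨φ, hφ⟩, i⟩ ∈ S := Submodule.subset_span ⟨_, rfl⟩
    have h2 : S.mkQ (rel ⟨⟨φ, hφ⟩, i⟩) = 0 := by
      rw [Submodule.mkQ_apply, Submodule.Quotient.mk_eq_zero]; exact h1
    simp only [rel, map_sub, map_sum] at h2
    rw [sub_eq_zero] at h2
    have h3 : ∀ (k : K) (a : R), S.mkQ (single k a) = a • S.mkQ (single k 1) := by
      intro k a
      rw [← map_smul]; simp
    rw [← h3, ← h2]
    refine Finset.sum_congr rfl fun j _ => ?_
    rw [← h3]
  · rintro ρ ⟨y, hy⟩
    choose Y hY using fun j => Submodule.mkQ_surjective S (y j)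
    have hmem : ∀ i, (∑ j, ρ.A i j • Y j - ρ.b i • single none 1 : K →₀ R) ∈ S := by
      intro i
      rw [← Submodule.Quotient.mk_eq_zero, ← Submodule.mkQ_apply, map_sub, map_sum, map_smul,
        sub_eq_zero, ← hy i]
      refine Finset.sum_congr rfl fun j _ => ?_
      rw [map_smul, hY]
    have hfs : ∀ i, ∃ c : I →₀ R, linearCombination R rel c =
        ∑ j, ρ.A i j • Y j - ρ.b i • single none 1 := by
      intro i
      exact (Finsupp.mem_span_range_iff_exists_finsupp.mp (hmem i)).imp fun c hc => by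
        rw [linearCombination_apply]; exact hc
    choose c hc using hfs
    refine ⟨Finset.univ.biUnion fun i => (c i).support.image fun k => (k.1 : PP R), ?_, ?_⟩
    · intro φ hφ
      simp only [Finset.coe_biUnion, Set.mem_iUnion, Finset.mem_coe, Finset.mem_image] at hφ
      obtain ⟨i, _, k, _, rfl⟩ := hφ
      exact k.1.2
    · intro Z _ _ z hz
      have hz' : ∀ φ : P, ∃ w : Fin φ.1.n → Z,
          (φ.1 ∈ Finset.univ.biUnion fun i => (c i).support.image fun k => (k.1 : PP R)) →
            ∀ i, ∑ j, φ.1.A i j • w j = φ.1.b i • z := by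
        intro φ
        by_cases hφ : φ.1 ∈ Finset.univ.biUnion fun i => (c i).support.image fun k => (k.1 : PP R)
        · obtain ⟨w, hw⟩ := hz _ hφ
          exact ⟨w, fun _ => hw⟩
        · exact ⟨fun _ => 0, fun h => absurd h hφ⟩
      choose w hw using hz'
      let g : K → Z := fun k => Option.elim k z fun p => w p.1 p.2
      let θ : (K →₀ R) →ₗ[R] Z := linearCombination R g
      have hrel : ∀ k : I, (k.1.1 ∈ Finset.univ.biUnion fun i =>
          (c i).support.image fun k => (k.1 : PP R)) → θ (rel k) = 0 := by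
        intro k hk
        simp only [θ, rel, map_sub, map_sum, linearCombination_single]
        rw [sub_eq_zero]
        exact hw k.1 hk k.2
      refine ⟨fun j => θ (Y j), fun i => ?_⟩
      have h1 : θ (∑ j, ρ.A i j • Y j - ρ.b i • single none 1) = 0 := by
        rw [← hc i, lc_map, linearCombination_apply]
        refine Finset.sum_eq_zero fun k hk => ?_
        change (c i) k • θ (rel k) = 0
        rw [hrel k, smul_zero]
        exact Finset.mem_biUnion.mpr ⟨i, Finset.mem_univ _, Finset.mem_image_of_mem _ hk⟩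
      rw [map_sub, map_sum, sub_eq_zero] at h1
      have h2 : θ (ρ.b i • single none 1) = ρ.b i • z := by
        rw [map_smul]
        simp [θ, g]
      rw [h2] at h1
      rw [← h1]
      exact Finset.sum_congr rfl fun j _ => (map_smul θ _ _).symm

theorem Entails.mono {P Q : Set (PP R)} (hPQ : P ⊆ Q) {ρ : PP R} (h : Entails P ρ) :
    Entails Q ρ := by
  obtain ⟨F, hF, h⟩ := h
  exact ⟨F, hF.trans hPQ, h⟩

/-- Existence of maximal types avoiding a set of formulas. -/
theorem exists_maximal_type (base bad : Set (PP R)) (h : ∀ β ∈ bad, ¬ Entails base β) :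
    ∃ P : Set (PP R), base ⊆ P ∧ (∀ β ∈ bad, ¬ Entails P β) ∧
      ∀ θ, θ ∉ P → ∃ β ∈ bad, Entails (insert θ P) β := by
  obtain ⟨P, hP, hPmax⟩ := zorn_subset_nonempty
    {P : Set (PP R) | ∀ β ∈ bad, ¬ Entails P β} (by
      intro c hc hch hne
      refine ⟨⋃₀ c, ?_, fun s hs => Set.subset_sUnion_of_mem hs⟩
      rintro β hβ ⟨F, hF, hFβ⟩
      have : ∃ Q ∈ c, (F : Set (PP R)) ⊆ Q := by
        classical
        induction F using Finset.induction_on with
        | empty => obtain ⟨Q, hQ⟩ := hne; exact ⟨Q, hQ, by simp⟩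
        | insert a F _ ih =>
          clear hFβ ih
          have hall : ∀ G : Finset (PP R), (G : Set (PP R)) ⊆ ⋃₀ c → ∃ Q ∈ c,
              (G : Set (PP R)) ⊆ Q := by
            intro G
            induction G using Finset.induction_on with
            | empty => intro _; obtain ⟨Q, hQ⟩ := hne; exact ⟨Q, hQ, by simp⟩
            | insert b G _ ih =>
              intro hG
              rw [Finset.coe_insert, Set.insert_subset_iff] at hG
              obtain ⟨Q, hQ, hQG⟩ := ih hG.2
              obtain ⟨Q', hQ', hbQ'⟩ := hG.1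
              rcases hch.total hQ hQ' with hle | hle
              · exact ⟨Q', hQ', by
                  rw [Finset.coe_insert, Set.insert_subset_iff]
                  exact ⟨hbQ', hQG.trans hle⟩⟩
              · exact ⟨Q, hQ, by
                  rw [Finset.coe_insert, Set.insert_subset_iff]
                  exact ⟨hle hbQ', hQG⟩⟩
          exact hall _ hF
      obtain ⟨Q, hQ, hFQ⟩ := this
      exact hc hQ β hβ ⟨F, hFQ, hFβ⟩) base h
  refine ⟨P, hP, hPmax.1, fun θ hθ => ?_⟩
  by_contra hno
  push Not at hno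
  exact hθ (hPmax.2 hno (Set.subset_insert θ P) (Set.mem_insert θ P))

/-- A map satisfying all linear relations is linear. -/
theorem exists_linear_of_rels {N N' : Type v} [AddCommGroup N] [Module R N] [AddCommGroup N']
    [Module R N'] (m : N → N')
    (h : ∀ ρ : N →₀ R, linearCombination R (id : N → N) ρ = 0 → linearCombination R m ρ = 0) :
    ∃ f : N →ₗ[R] N', ∀ x, f x = m x := by
  refine ⟨{ toFun := m, map_add' := fun b b' => ?_, map_smul' := fun r b => ?_ }, fun _ => rfl⟩
  · have := h (single (b + b') 1 - single b 1 - single b' 1) (by simp)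
    simp only [map_sub, linearCombination_single, one_smul] at this
    rw [sub_sub, sub_eq_zero] at this
    exact this
  · have := h (single (r • b) 1 - single b r) (by simp)
    simp only [map_sub, linearCombination_single, one_smul] at this
    rw [sub_eq_zero] at this
    exact this

/-- Extension property of algebraically compact modules. -/
theorem AlgCompact.exists_map {N : Type u} [AddCommGroup N] [Module R N] (h : AlgCompact R N)
    {z x : N} (hzx : ∀ θ : PP R, θ.Holds z → θ.Holds x) : ∃ f : N →ₗ[R] N, f z = x := by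
  classical
  obtain ⟨m, hm⟩ := h N {p | (linearCombination R (id : N → N) p.1 = 0 ∧ p.2 = 0) ∨
      p = (single z 1, x)} (by
    intro F hF
    obtain ⟨φ, hφ⟩ := exists_pp_of_rels (R := R)
      (((F.filter fun p => linearCombination R (id : N → N) p.1 = 0 ∧ p.2 = 0).image
        fun p => ((p.1, 0) : (N →₀ R) × R)) ∪ {(single z 1, 1)})
    have h1 : φ.Holds z := by
      rw [hφ]
      refine ⟨id, fun p hp => ?_⟩
      rcases Finset.mem_union.mp hp with hp | hp
      · obtain ⟨q, hq, rfl⟩ := Finset.mem_image.mp hp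
        have := (Finset.mem_filter.mp hq).2.1
        simp [this]
      · rw [Finset.mem_singleton] at hp
        subst hp
        simp
    obtain ⟨y, hy⟩ := (hφ N x).mp (hzx φ h1)
    refine ⟨y, fun p hp => ?_⟩
    rcases hF hp with ⟨hp1, hp2⟩ | hp1
    · have := hy (p.1, 0) (Finset.mem_union_left _ (Finset.mem_image.mpr
        ⟨p, Finset.mem_filter.mpr ⟨hp, hp1, hp2⟩, rfl⟩))
      rw [hp2]
      simpa using this
    · have := hy (single z 1, 1) (Finset.mem_union_right _ (Finset.mem_singleton_self _))
      rw [hp1]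
      simpa using this)
  obtain ⟨f, hf⟩ := exists_linear_of_rels m fun ρ hρ => hm (ρ, 0) (Or.inl ⟨hρ, rfl⟩)
  refine ⟨f, ?_⟩
  have := hm (single z 1, x) (Or.inr rfl)
  rw [hf]
  simpa using this

/-- The basic formula: `x` lies in `r X + ker s`. -/
def bas (r s : R) : PP R := ⟨1, 1, fun _ _ => s * r, fun _ => s⟩

theorem bas_holds {r s : R} {X : Type v} [AddCommGroup X] [Module R X] {x : X} :
    (bas r s).Holds x ↔ ∃ w : X, s • (r • w) = s • x := by
  have hh : (bas r s).Holds x ↔ ∃ y : Fin 1 → X, ∀ _ : Fin 1, ∑ j : Fin 1, (s * r) • y j = s • x :=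
    Iff.rfl
  rw [hh]
  constructor
  · rintro ⟨y, hy⟩
    refine ⟨y 0, ?_⟩
    have := hy 0
    rw [Fin.sum_univ_one] at this
    rw [← this, smul_smul]
  · rintro ⟨w, hw⟩
    refine ⟨fun _ => w, fun i => ?_⟩
    rw [Fin.sum_univ_one, ← hw, smul_smul]

/-- Endomorphisms splitting an element along a basic formula. -/
theorem AlgCompact.exists_split {N : Type u} [AddCommGroup N] [Module R N] (h : AlgCompact R N)
    {y : N} {r s : R}
    (hdist : ∀ φ : PP R, φ.Holds y → ∃ w : N, s • (r • w) = s • y ∧ φ.Holds (r • w)) :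
    ∃ f : N →ₗ[R] N, (∃ w, f y = r • w) ∧ s • f y = s • y := by
  classical
  obtain ⟨m, hm⟩ := h (N ⊕ PUnit) {p | (∃ ρ : N →₀ R, linearCombination R (id : N → N) ρ = 0 ∧
      p = (mapDomain Sum.inl ρ, 0)) ∨ p = (single (Sum.inl y) 1 - single (Sum.inr PUnit.unit) r, 0)
      ∨ p = (single (Sum.inl y) s, s • y)} (by
    intro F hF
    let G : Finset (N →₀ R) := (F.image fun p => comapDomain Sum.inl p.1
      (Sum.inl_injective.injOn)).filter fun ρ => linearCombination R (id : N → N) ρ = 0
    obtain ⟨φ, hφ⟩ := exists_pp_of_rels (R := R)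
      ((G.image fun ρ => ((ρ, 0) : (N →₀ R) × R)) ∪ {(single y 1, 1)})
    have h1 : φ.Holds y := by
      rw [hφ]
      refine ⟨id, fun p hp => ?_⟩
      rcases Finset.mem_union.mp hp with hp | hp
      · obtain ⟨q, hq, rfl⟩ := Finset.mem_image.mp hp
        have := (Finset.mem_filter.mp hq).2
        simp [this]
      · rw [Finset.mem_singleton] at hp
        subst hp
        simp
    obtain ⟨w, hw1, hw2⟩ := hdist φ h1
    obtain ⟨v, hv⟩ := (hφ N (r • w)).mp hw2
    have hvy : v y = r • w := by
      have := hv (single y 1, 1) (Finset.mem_union_right _ (Finset.mem_singleton_self _))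
      simpa using this
    refine ⟨Sum.elim v fun _ => w, fun p hp => ?_⟩
    rcases hF hp with ⟨ρ, hρ, rfl⟩ | rfl | rfl
    · simp only [lc_mapDomain]
      have hρG : ρ ∈ G := by
        refine Finset.mem_filter.mpr ⟨Finset.mem_image.mpr ⟨_, hp, ?_⟩, hρ⟩
        exact comapDomain_mapDomain _ Sum.inl_injective _
      have := hv (ρ, 0) (Finset.mem_union_left _ (Finset.mem_image_of_mem _ hρG))
      simpa using this
    · simp [hvy]
    · simp [hvy, hw1])
  obtain ⟨f, hf⟩ := exists_linear_of_rels (fun n => m (Sum.inl n)) fun ρ hρ => by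
    have := hm (mapDomain Sum.inl ρ, 0) (Or.inl ⟨ρ, hρ, rfl⟩)
    simp only [lc_mapDomain] at this
    exact this
  refine ⟨f, ⟨m (Sum.inr PUnit.unit), ?_⟩, ?_⟩
  · have := hm _ (Or.inr (Or.inl rfl))
    simp only [map_sub, linearCombination_single, one_smul] at this
    rw [hf]
    exact sub_eq_zero.mp this
  · have := hm _ (Or.inr (Or.inr rfl))
    simp only [linearCombination_single] at this
    rw [hf]
    exact this

end

end Pool.Agent.SerialKdim
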